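import Mathlib

/-!
# Coding finitely many real functions by one real function

`Dig J = ℕ × (J → Bool)` with `J` countable is a closed subspace of `ℝ`, and over a strongly
zero-dimensional space every continuous map to `Fin k → ℝ` factors through the signed-digit map
`Dig (Fin k × ℕ × Bool) → (Fin k → ℝ)`.
-/

set_option autoImplicit false

open Topology Set Filter

namespace Pool.Agent.R594.Lp

/-- `0/1` value of a bit -/
def bv (b : Bool) : ℝ := if b then 1 else 0

theorem bv_cont : Continuous bv := continuous_of_discreteTopology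

theorem bv_nonneg (b : Bool) : 0 ≤ bv b := by unfold bv; split <;> norm_num
theorem bv_le (b : Bool) : bv b ≤ 1 := by unfold bv; split <;> norm_num

theorem cantor_cont : Continuous (Cardinal.cantorFunction (1/3)) := by
  unfold Cardinal.cantorFunction
  refine continuous_tsum (u := fun n => (1/3 : ℝ) ^ n) ?_
    (summable_geometric_of_lt_one (by norm_num) (by norm_num)) ?_
  · intro n
    unfold Cardinal.cantorFunctionAux
    have : (fun f : ℕ → Bool => bif f n then (1/3 : ℝ) ^ n else 0)
        = (fun b : Bool => bif b then (1/3 : ℝ) ^ n else 0) ∘ (fun f : ℕ → Bool => f n) := rfl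
    rw [this]
    exact continuous_of_discreteTopology.comp (continuous_apply n)
  · intro n f
    unfold Cardinal.cantorFunctionAux
    cases f n
    · simp
    · simp

/-- a continuous injection of the Cantor set `J → Bool` to `ℝ` -/
theorem exists_inj (J : Type) [Encodable J] :
    ∃ c : (J → Bool) → ℝ, Continuous c ∧ Function.Injective c := by
  let t : (J → Bool) → (ℕ → Bool) := fun s n =>
    match (Encodable.decode (α := J) n) with
    | some j => s j
    | none => false
  have ht : Continuous t := by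
    refine continuous_pi fun n => ?_
    show Continuous fun s : J → Bool => (match (Encodable.decode (α := J) n) with
      | some j => s j
      | none => false)
    cases h : (Encodable.decode (α := J) n) with
    | none => exact continuous_const
    | some j => exact continuous_apply j
  refine ⟨fun s => Cardinal.cantorFunction (1/3) (t s), cantor_cont.comp ht, ?_⟩
  intro s s' h
  have h1 : t s = t s' := Cardinal.cantorFunction_injective (by norm_num) (by norm_num) h
  funext j
  have := congrFun h1 (Encodable.encode j)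
  simpa [t, Encodable.encodek] using this

theorem exists_closedEmb (J : Type) [Encodable J] :
    ∃ e : ℕ × (J → Bool) → ℝ, IsClosedEmbedding e := by
  obtain ⟨c, hc, hci⟩ := exists_inj J
  obtain ⟨M, hM⟩ : ∃ M : ℝ, ∀ s, |c s| < M := by
    have hcomp : IsCompact (range fun s => |c s|) := isCompact_range hc.abs
    obtain ⟨M, hM⟩ := hcomp.bddAbove
    exact ⟨M + 1, fun s => lt_of_le_of_lt (hM ⟨s, rfl⟩) (lt_add_one M)⟩
  have hM0 : 0 < M := lt_of_le_of_lt (abs_nonneg _) (hM (fun _ => false))
  let e : ℕ × (J → Bool) → ℝ := fun p => 2 * M * p.1 + c p.2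
  have he : Continuous e := by
    refine Continuous.add (Continuous.mul continuous_const ?_) (hc.comp continuous_snd)
    exact (continuous_of_discreteTopology (f := fun n : ℕ => (n : ℝ))).comp continuous_fst
  have hlt : ∀ p q : ℕ × (J → Bool), p.1 < q.1 → e p < e q := by
    intro p q hpq
    have h1 := abs_lt.1 (hM p.2)
    have h2 := abs_lt.1 (hM q.2)
    have h3 : (p.1 : ℝ) + 1 ≤ q.1 := by exact_mod_cast hpq
    show 2 * M * p.1 + c p.2 < 2 * M * q.1 + c q.2
    nlinarith
  have hinj : Function.Injective e := by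
    intro p q hpq
    rcases lt_trichotomy p.1 q.1 with h | h | h
    · exact absurd hpq (hlt p q h).ne
    · have : c p.2 = c q.2 := by
        have h' : 2 * M * (p.1 : ℝ) + c p.2 = 2 * M * q.1 + c q.2 := hpq
        rw [h] at h'
        linarith
      exact Prod.ext h (hci this)
    · exact absurd hpq (hlt q p h).ne'
  have hprop : IsProperMap e := by
    rw [isProperMap_iff_isCompact_preimage]
    refine ⟨he, fun K hK => ?_⟩
    obtain ⟨B, hB⟩ := hK.bddAbove
    obtain ⟨N, hN⟩ := exists_nat_gt ((B + M) / (2 * M))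
    have hsub : e ⁻¹' K ⊆ (Iic N) ×ˢ (univ : Set (J → Bool)) := by
      intro p hp
      refine ⟨?_, trivial⟩
      show p.1 ≤ N
      have h1 : e p ≤ B := hB hp
      have h2 := abs_lt.1 (hM p.2)
      have h3 : 2 * M * (p.1 : ℝ) + c p.2 ≤ B := h1
      rw [div_lt_iff₀ (by positivity)] at hN
      have h4 : (p.1 : ℝ) < N := by
        by_contra hcon
        push Not at hcon
        nlinarith
      exact_mod_cast h4.le
    exact IsCompact.of_isClosed_subset ((Set.finite_Iic N).isCompact.prod isCompact_univ)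
      (hK.isClosed.preimage he) hsub
  exact ⟨e, IsClosedEmbedding.of_continuous_injective_isClosedMap he hinj hprop.isClosedMap⟩

/-- strongly zero-dimensional, in the form used below -/
def SZ (X : Type*) [TopologicalSpace X] : Prop :=
  ∀ f : X → ℝ, Continuous f → ∀ a b : ℝ, a < b →
    ∃ U : Set X, IsClopen U ∧ (∀ x, f x ≤ a → x ∈ U) ∧ (∀ x ∈ U, f x < b)

section Lift
variable {X : Type*} [TopologicalSpace X]

theorem clopen_bool {U : Set X} (hU : IsClopen U) :
    ∃ P : X → Bool, Continuous P ∧ ∀ x, P x = true ↔ x ∈ U := by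
  classical
  refine ⟨fun x => decide (x ∈ U), ?_, fun x => by simp⟩
  rw [continuous_discrete_rng]
  intro b
  cases b
  · have : (fun x => decide (x ∈ U)) ⁻¹' {false} = Uᶜ := by ext x; simp
    rw [this]
    exact hU.compl.isOpen
  · have : (fun x => decide (x ∈ U)) ⁻¹' {true} = U := by ext x; simp
    rw [this]
    exact hU.isOpen

theorem step (hz : SZ X) (r : X → ℝ) (hr : Continuous r) (hb : ∀ x, |r x| ≤ 1) :
    ∃ P Q : X → Bool, Continuous P ∧ Continuous Q ∧
      ∀ x, |2 * r x - (bv (P x) - bv (Q x))| ≤ 1 := by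
  obtain ⟨U, hU, hU1, hU2⟩ := hz (fun x => - r x) hr.neg (-(1/2)) 0 (by norm_num)
  obtain ⟨V, hV, hV1, hV2⟩ := hz r hr (-(1/2)) 0 (by norm_num)
  obtain ⟨P, hP, hP'⟩ := clopen_bool hU
  obtain ⟨Q, hQ, hQ'⟩ := clopen_bool hV
  refine ⟨P, Q, hP, hQ, fun x => ?_⟩
  have hx := abs_le.1 (hb x)
  by_cases h1 : x ∈ U
  · have hp : bv (P x) = 1 := by simp [bv, (hP' x).2 h1]
    have h2 : x ∉ V := by
      intro h2
      have a1 := hU2 x h1
      have a2 := hV2 x h2
      linarith
    have hq : bv (Q x) = 0 := by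
      have : ¬ Q x = true := fun h => h2 ((hQ' x).1 h)
      simp [bv, this]
    have a1 := hU2 x h1
    rw [hp, hq, abs_le]
    constructor <;> linarith [hx.1, hx.2]
  · have hp : bv (P x) = 0 := by
      have : ¬ P x = true := fun h => h1 ((hP' x).1 h)
      simp [bv, this]
    have b1 : ¬ (- r x ≤ -(1/2)) := fun h => h1 (hU1 x h)
    by_cases h2 : x ∈ V
    · have hq : bv (Q x) = 1 := by simp [bv, (hQ' x).2 h2]
      have a2 := hV2 x h2
      rw [hp, hq, abs_le]
      constructor <;> linarith [hx.1, hx.2]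
    · have hq : bv (Q x) = 0 := by
        have : ¬ Q x = true := fun h => h2 ((hQ' x).1 h)
        simp [bv, this]
      have b2 : ¬ (r x ≤ -(1/2)) := fun h => h2 (hV1 x h)
      push Not at b1 b2
      rw [hp, hq, abs_le]
      constructor <;> linarith

/-- signed digit expansion of a function with values in `[-1,1]` -/
theorem digits (hz : SZ X) (r : X → ℝ) (hr : Continuous r) (hb : ∀ x, |r x| ≤ 1) :
    ∃ P : ℕ → Bool → X → Bool, (∀ n b, Continuous (P n b)) ∧
      ∀ x, HasSum (fun n => (1/2 : ℝ) ^ (n + 1) * (bv (P n true x) - bv (P n false x))) (r x) := by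
  classical
  let R := {g : X → ℝ // Continuous g ∧ ∀ x, |g x| ≤ 1}
  have hstep : ∀ g : R, ∃ PQ : Bool → X → Bool, (∀ b, Continuous (PQ b)) ∧
      ∀ x, |2 * g.1 x - (bv (PQ true x) - bv (PQ false x))| ≤ 1 := by
    intro g
    obtain ⟨P, Q, hP, hQ, h⟩ := step hz g.1 g.2.1 g.2.2
    refine ⟨fun b => if b then P else Q, ?_, ?_⟩
    · intro b; cases b
      · simpa using hQ
      · simpa using hP
    · intro x; simpa using h x
  choose D hD1 hD2 using hstep
  let nx : R → R := fun g => ⟨fun x => 2 * g.1 x - (bv (D g true x) - bv (D g false x)),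
    ⟨(continuous_const.mul g.2.1).sub ((bv_cont.comp (hD1 g true)).sub (bv_cont.comp (hD1 g false))),
      hD2 g⟩⟩
  let seq : ℕ → R := fun n => nx^[n] ⟨r, hr, hb⟩
  have hseq : ∀ n, seq (n+1) = nx (seq n) := fun n => Function.iterate_succ_apply' _ _ _
  refine ⟨fun n b => D (seq n) b, fun n b => hD1 _ _, fun x => ?_⟩
  have hpart : ∀ n, ∑ i ∈ Finset.range n, (1/2 : ℝ) ^ (i + 1) *
      (bv (D (seq i) true x) - bv (D (seq i) false x)) = r x - (1/2 : ℝ) ^ n * (seq n).1 x := by
    intro n
    induction n with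
    | zero => simp [seq]
    | succ n ih =>
      rw [Finset.sum_range_succ, ih, hseq n]
      show _ = r x - (1/2 : ℝ)^(n+1) *
        (2 * (seq n).1 x - (bv (D (seq n) true x) - bv (D (seq n) false x)))
      ring
  have hsum : Summable (fun n => (1/2 : ℝ) ^ (n + 1) *
      (bv (D (seq n) true x) - bv (D (seq n) false x))) := by
    refine Summable.of_norm_bounded (g := fun n => (1/2 : ℝ) ^ (n+1)) ?_ ?_
    · exact (summable_nat_add_iff 1).2 (summable_geometric_of_lt_one (by norm_num) (by norm_num))
    · intro n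
      rw [Real.norm_eq_abs, abs_mul, abs_of_nonneg (by positivity : (0:ℝ) ≤ (1/2 : ℝ)^(n+1))]
      refine mul_le_of_le_one_right (by positivity) ?_
      rw [abs_le]
      constructor <;> linarith [bv_nonneg (D (seq n) true x), bv_le (D (seq n) true x),
        bv_nonneg (D (seq n) false x), bv_le (D (seq n) false x)]
  rw [hsum.hasSum_iff_tendsto_nat]
  simp_rw [hpart]
  have h0 : Tendsto (fun n : ℕ => (1/2 : ℝ) ^ n * (seq n).1 x) atTop (𝓝 0) := by
    refine squeeze_zero_norm (a := fun n => (1/2 : ℝ) ^ n) ?_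
      (tendsto_pow_atTop_nhds_zero_of_lt_one (by norm_num) (by norm_num))
    intro n
    rw [Real.norm_eq_abs, abs_mul, abs_of_nonneg (by positivity : (0:ℝ) ≤ (1/2 : ℝ)^n)]
    exact mul_le_of_le_one_right (by positivity) ((seq n).2.2 x)
  simpa using tendsto_const_nhds.sub h0

/-- a locally constant natural upper bound -/
theorem nat_bound (hz : SZ X) (F : X → ℝ) (hF : Continuous F) :
    ∃ h : X → ℕ, Continuous h ∧ ∀ x, F x ≤ h x := by
  classical
  have H : ∀ n : ℕ, ∃ U : Set X, IsClopen U ∧ (∀ x, F x ≤ n → x ∈ U) ∧ (∀ x ∈ U, F x < (n+1 : ℝ)) :=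
    fun n => hz F hF n (n+1) (by linarith)
  choose U hU hU1 hU2 using H
  have hex : ∀ x, ∃ n : ℕ, x ∈ U n := fun x => by
    obtain ⟨n, hn⟩ := exists_nat_ge (F x)
    exact ⟨n, hU1 n x hn⟩
  refine ⟨fun x => Nat.find (hex x) + 1, ?_, fun x => ?_⟩
  · refine (continuous_of_discreteTopology (f := fun n : ℕ => n + 1)).comp
      (g := fun n : ℕ => n+1) ?_
    rw [continuous_discrete_rng]
    intro n
    have : (fun x => Nat.find (hex x)) ⁻¹' {n} = U n \ ⋃ m ∈ Finset.range n, U m := by
      ext x
      simp only [mem_preimage, mem_singleton_iff, Nat.find_eq_iff, Set.mem_sdiff, mem_iUnion,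
        Finset.mem_range, not_exists]
    rw [this]
    exact (hU n).isOpen.sdiff (isClosed_biUnion_finset fun m _ => (hU m).isClosed)
  · have := hU2 _ x (Nat.find_spec (hex x))
    push_cast
    exact this.le

/-- index set of bits -/
abbrev Bits (k : ℕ) := Fin k × ℕ × Bool

/-- the decoding map -/
noncomputable def Gk (k : ℕ) (p : ℕ × (Bits k → Bool)) (l : Fin k) : ℝ :=
  (p.1 : ℝ) * ∑' n : ℕ, (1/2 : ℝ) ^ (n + 1) * (bv (p.2 (l, n, true)) - bv (p.2 (l, n, false)))

theorem Gk_cont (k : ℕ) (l : Fin k) : Continuous fun p : ℕ × (Bits k → Bool) => Gk k p l := by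
  unfold Gk
  refine Continuous.mul ((continuous_of_discreteTopology (f := fun n : ℕ => (n : ℝ))).comp
    continuous_fst) ?_
  refine continuous_tsum (u := fun n => (1/2 : ℝ) ^ (n+1)) ?_ ?_ ?_
  · intro n
    refine continuous_const.mul (Continuous.sub ?_ ?_)
    · exact bv_cont.comp ((continuous_apply _).comp continuous_snd)
    · exact bv_cont.comp ((continuous_apply _).comp continuous_snd)
  · exact (summable_nat_add_iff 1).2 (summable_geometric_of_lt_one (by norm_num) (by norm_num))
  · intro n p
    rw [Real.norm_eq_abs, abs_mul, abs_of_nonneg (by positivity : (0:ℝ) ≤ (1/2 : ℝ)^(n+1))]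
    refine mul_le_of_le_one_right (by positivity) ?_
    rw [abs_le]
    constructor <;> linarith [bv_nonneg (p.2 (l, n, true)), bv_le (p.2 (l, n, true)),
      bv_nonneg (p.2 (l, n, false)), bv_le (p.2 (l, n, false))]

/-- the coding lemma -/
theorem lift (hz : SZ X) (k : ℕ) (f : Fin k → X → ℝ) (hf : ∀ l, Continuous (f l)) :
    ∃ u : X → ℕ × (Bits k → Bool), Continuous u ∧ ∀ l x, Gk k (u x) l = f l x := by
  obtain ⟨h, hh, hh'⟩ := nat_bound hz (fun x => 1 + ∑ l, |f l x|)
    (continuous_const.add (continuous_finsetSum _ fun l _ => (hf l).abs))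
  have hpos : ∀ x, (0 : ℝ) < h x := fun x => by
    have h1 := hh' x
    have h2 : 0 ≤ ∑ l, |f l x| := Finset.sum_nonneg fun l _ => abs_nonneg _
    linarith
  have hle : ∀ l x, |f l x| ≤ h x := fun l x => by
    have h1 := hh' x
    have h2 : |f l x| ≤ ∑ l, |f l x| :=
      Finset.single_le_sum (f := fun l => |f l x|) (fun l _ => abs_nonneg _) (Finset.mem_univ l)
    linarith
  have hhc : Continuous fun x => (h x : ℝ) :=
    (continuous_of_discreteTopology (f := fun n : ℕ => (n : ℝ))).comp hh
  have hD : ∀ l : Fin k, ∃ P : ℕ → Bool → X → Bool, (∀ n b, Continuous (P n b)) ∧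
      ∀ x, HasSum (fun n => (1/2 : ℝ) ^ (n + 1) * (bv (P n true x) - bv (P n false x)))
        (f l x / h x) := by
    intro l
    refine digits hz (fun x => f l x / h x) ((hf l).div hhc fun x => (hpos x).ne') fun x => ?_
    rw [abs_div, abs_of_pos (hpos x)]
    exact div_le_one_of_le₀ (hle l x) (hpos x).le
  choose P hP1 hP2 using hD
  refine ⟨fun x => (h x, fun b => P b.1 b.2.1 b.2.2 x), ?_, ?_⟩
  · exact hh.prodMk (continuous_pi fun b => hP1 _ _ _)
  · intro l x
    unfold Gk
    simp only
    rw [(hP2 l x).tsum_eq]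
    field_simp [(hpos x).ne']

end Lift

end Pool.Agent.R594.Lp
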