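import Mathlib
import Pool.Agent.R594.Lp.Code

/-!
# Closed separability of `C_p(X)` and perfect normality of `L_p(X)`
-/

set_option autoImplicit false

open Topology Set Filter TopologicalSpace

namespace Pool.Agent.R594.Lp

universe u

/-- every closed subspace is separable -/
def ClSep (Y : Type*) [TopologicalSpace Y] : Prop :=
  ∀ S : Set Y, IsClosed S → SeparableSpace ↥S

/-- `C_p(X)` -/
abbrev Cp (X : Type*) [TopologicalSpace X] := ↥{f : X → ℝ | Continuous f}

/-- `L_p(X)` -/
abbrev LpS (X : Type*) [TopologicalSpace X] :=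
  ↥(Set.range (fun a : X →₀ ℝ => fun f : C(X, ℝ) => a.sum (fun x r => r * f x)))

/-- a dense countable subset of a closed set -/
theorem ClSep.exists {Y : Type*} [TopologicalSpace Y] (h : ClSep Y) {S : Set Y} (hS : IsClosed S) :
    ∃ D : Set Y, D.Countable ∧ D ⊆ S ∧ S ⊆ closure D := by
  have := h S hS
  obtain ⟨D, hD, hD'⟩ := exists_countable_dense ↥S
  refine ⟨Subtype.val '' D, hD.image _, ?_, ?_⟩
  · rintro _ ⟨x, -, rfl⟩; exact x.2
  · intro x hx
    have h1 : (⟨x, hx⟩ : S) ∈ closure D := hD' _
    have h2 := image_closure_subset_closure_image (f := (Subtype.val : S → Y))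
      continuous_subtype_val (mem_image_of_mem _ h1)
    exact h2

theorem ClSep.closedEmb {Y Z : Type*} [TopologicalSpace Y] [TopologicalSpace Z] (h : ClSep Y)
    {e : Z → Y} (he : IsClosedEmbedding e) : ClSep Z := by
  intro S hS
  have := h _ (he.isClosedMap S hS)
  let H := he.isEmbedding.homeomorphImage S
  exact (H.symm.surjective.denseRange).separableSpace H.symm.continuous

theorem ClSep.image {Z T : Type*} [TopologicalSpace Z] [TopologicalSpace T] (h : ClSep Z)
    {g : Z → T} (hg : Continuous g) (hs : Function.Surjective g) : ClSep T := by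
  intro S hS
  have := h _ (hS.preimage hg)
  let H : ↥(g ⁻¹' S) → ↥S := fun z => ⟨g z.1, z.2⟩
  have hH : Continuous H := (hg.comp continuous_subtype_val).subtype_mk _
  have hHs : Function.Surjective H := by
    rintro ⟨t, ht⟩
    obtain ⟨z, rfl⟩ := hs t
    exact ⟨⟨z, ht⟩, rfl⟩
  exact hHs.denseRange.separableSpace hH

section
variable {X : Type*} [TopologicalSpace X]

/-- From `C_p(X)` to finite powers, for strongly zero-dimensional `X`. -/
theorem clSep_pow (hz : SZ X) (h : ClSep (Cp X)) (k : ℕ) : ClSep (Fin k → Cp X) := by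
  obtain ⟨e, he⟩ := exists_closedEmb (Bits k)
  have hE : IsClosedEmbedding (Pi.map (fun _ : X => e) :
      (X → ℕ × (Bits k → Bool)) → (X → ℝ)) := IsClosedEmbedding.piMap fun _ => he
  have hE' := hE.restrictPreimage {f : X → ℝ | Continuous f}
  have h1 := h.closedEmb hE'
  have hcont : ∀ u : ↥((Pi.map (fun _ : X => e) :
      (X → ℕ × (Bits k → Bool)) → (X → ℝ)) ⁻¹' {f : X → ℝ | Continuous f}),
      Continuous u.1 := fun u => he.isInducing.continuous_iff.2 u.2
  let g : ↥((Pi.map (fun _ : X => e) :
      (X → ℕ × (Bits k → Bool)) → (X → ℝ)) ⁻¹' {f : X → ℝ | Continuous f}) → (Fin k → Cp X) :=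
    fun u l => ⟨fun x => Gk k (u.1 x) l, (Gk_cont k l).comp (hcont u)⟩
  refine h1.image (g := g) ?_ ?_
  · refine continuous_pi fun l => Continuous.subtype_mk (continuous_pi fun x => ?_) _
    exact (Gk_cont k l).comp ((continuous_apply x).comp continuous_subtype_val)
  · intro f
    obtain ⟨u, hu, hu'⟩ := lift hz k (fun l => (f l).1) (fun l => (f l).2)
    refine ⟨⟨u, ?_⟩, ?_⟩
    · show Continuous (Pi.map (fun _ : X => e) u)
      exact he.continuous.comp hu
    · funext l
      apply Subtype.ext
      funext x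
      exact hu' l x

/-- a clopen base and closed separability give strong zero-dimensionality -/
theorem sz_of_clopen_base (hb : IsTopologicalBasis {s : Set X | IsClopen s})
    (h : ClSep (Cp X)) : SZ X := by
  classical
  -- every open set is a countable union of clopen sets
  have key : ∀ B : Set X, IsClosed B → ∃ C : ℕ → Set X, (∀ n, IsClopen (C n)) ∧
      (⋃ n, C n) = Bᶜ := by
    intro B hB
    let Φ : Set (Cp X) := {u | (∀ x, u.1 x = 0 ∨ u.1 x = 1) ∧ ∀ x ∈ B, u.1 x = 0}
    have hev : ∀ x : X, Continuous fun u : Cp X => u.1 x :=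
      fun x => (continuous_apply x).comp continuous_subtype_val
    have hΦ : IsClosed Φ := by
      have : Φ = (⋂ x, {u : Cp X | u.1 x = 0 ∨ u.1 x = 1}) ∩ ⋂ x ∈ B, {u : Cp X | u.1 x = 0} := by
        ext u; simp [Φ]
      rw [this]
      refine IsClosed.inter (isClosed_iInter fun x => ?_) (isClosed_biInter fun x _ => ?_)
      · exact (isClosed_eq (hev x) continuous_const).union (isClosed_eq (hev x) continuous_const)
      · exact isClosed_eq (hev x) continuous_const
    obtain ⟨D, hD, hDΦ, hDd⟩ := h.exists hΦ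
    have hclop : ∀ d ∈ D, IsClopen {x | d.1 x = 1} := by
      intro d hd
      refine ⟨isClosed_eq d.2 continuous_const, ?_⟩
      have : {x | d.1 x = 1} = {x | (1/2 : ℝ) < d.1 x} := by
        ext x
        simp only [mem_ofPred_eq]
        rcases (hDΦ hd).1 x with h0 | h0 <;> rw [h0] <;> norm_num
      rw [this]
      exact isOpen_lt continuous_const d.2
    have hcov : (⋃ d ∈ D, {x | d.1 x = 1}) = Bᶜ := by
      ext x
      simp only [mem_iUnion, mem_ofPred_eq, exists_prop, mem_compl_iff]
      constructor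
      · rintro ⟨d, hd, hdx⟩ hx
        have := (hDΦ hd).2 x hx
        rw [this] at hdx
        norm_num at hdx
      · intro hx
        obtain ⟨V, hV, hxV, hVB⟩ := hb.exists_subset_of_mem_open (mem_compl hx) hB.isOpen_compl
        let v : Cp X := ⟨V.indicator fun _ => (1:ℝ), by
          exact (IsClopen.continuous_indicator hV continuous_const)⟩
        have hvΦ : v ∈ Φ := by
          refine ⟨fun y => ?_, fun y hy => ?_⟩
          · by_cases hyV : y ∈ V
            · right; simp [v, hyV]
            · left; simp [v, hyV]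
          · have : y ∉ V := fun hyV => hVB hyV hy
            simp [v, this]
        have h1 := hDd hvΦ
        rw [mem_closure_iff] at h1
        obtain ⟨d, hd1, hd2⟩ := h1 {u : Cp X | (1/2:ℝ) < u.1 x}
          (isOpen_lt continuous_const (hev x)) (by simp [v, hxV]; norm_num)
        refine ⟨d, hd2, ?_⟩
        rcases (hDΦ hd2).1 x with h0 | h0
        · simp only [mem_ofPred_eq, h0] at hd1
          norm_num at hd1
        · exact h0
    have hcount : ((fun d : Cp X => {x | d.1 x = 1}) '' D ∪ {∅}).Countable :=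
      (hD.image _).union (countable_singleton _)
    obtain ⟨C, hC⟩ := hcount.exists_eq_range ⟨∅, Or.inr rfl⟩
    refine ⟨C, fun n => ?_, ?_⟩
    · have : C n ∈ (fun d : Cp X => {x | d.1 x = 1}) '' D ∪ {∅} := by
        rw [hC]; exact mem_range_self n
      rcases this with ⟨d, hd, hd'⟩ | hd
      · rw [← hd']; exact hclop d hd
      · rw [mem_singleton_iff.1 hd]; exact isClopen_empty
    · rw [← hcov, ← sUnion_range, ← hC, sUnion_union, sUnion_image]
      simp
  intro f hf a b hab
  obtain ⟨C, hC, hCu⟩ := key {x | b ≤ f x} (isClosed_le continuous_const hf)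
  obtain ⟨D, hD, hDu⟩ := key {x | f x ≤ a} (isClosed_le hf continuous_const)
  have hCm : ∀ x, (∃ n, x ∈ C n) ↔ f x < b := by
    intro x
    rw [← mem_iUnion, hCu]; simp
  have hDm : ∀ x, (∃ n, x ∈ D n) ↔ a < f x := by
    intro x
    rw [← mem_iUnion, hDu]; simp
  let U : Set X := ⋃ n, (C n \ ⋃ m ∈ Finset.range n, D m)
  let V : Set X := ⋃ n, (D n \ ⋃ m ∈ Finset.range (n+1), C m)
  have hUo : IsOpen U := isOpen_iUnion fun n =>
    (hC n).isOpen.sdiff (isClosed_biUnion_finset fun m _ => (hD m).isClosed)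
  have hVo : IsOpen V := isOpen_iUnion fun n =>
    (hD n).isOpen.sdiff (isClosed_biUnion_finset fun m _ => (hC m).isClosed)
  have hUV : Uᶜ = V := by
    ext x
    have hex : ∃ n, x ∈ C n ∨ x ∈ D n := by
      rcases lt_or_ge (f x) b with h1 | h1
      · obtain ⟨n, hn⟩ := (hCm x).2 h1; exact ⟨n, Or.inl hn⟩
      · obtain ⟨n, hn⟩ := (hDm x).2 (lt_of_lt_of_le hab h1); exact ⟨n, Or.inr hn⟩
    simp only [U, V, mem_compl_iff, mem_iUnion, Set.mem_sdiff, Finset.mem_range, not_exists,
      exists_prop, not_and]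
    constructor
    · intro hx
      refine ⟨Nat.find hex, ?_⟩
      have hC' : x ∉ C (Nat.find hex) := by
        intro hc
        have := hx _ hc
        push Not at this
        obtain ⟨m, hm, hm'⟩ := this
        exact Nat.find_min hex hm (Or.inr hm')
      refine ⟨(Nat.find_spec hex).resolve_left hC', ?_⟩
      intro m hm hcm
      rcases Nat.lt_succ_iff_lt_or_eq.1 hm with h1 | h1
      · exact Nat.find_min hex h1 (Or.inl hcm)
      · exact hC' (h1 ▸ hcm)
    · rintro ⟨n, hn, hn'⟩ m hm
      push Not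
      refine ⟨n, ?_, hn⟩
      by_contra hcon
      exact hn' m (by omega) hm
  refine ⟨U, ⟨?_, hUo⟩, ?_, ?_⟩
  · rw [← isOpen_compl_iff, hUV]; exact hVo
  · intro x hx
    obtain ⟨n, hn⟩ := (hCm x).2 (lt_of_le_of_lt hx hab)
    refine mem_iUnion.2 ⟨n, hn, ?_⟩
    simp only [mem_iUnion, exists_prop, not_exists, not_and]
    intro m _ hm
    exact absurd ((hDm x).1 ⟨m, hm⟩) (not_lt.2 hx)
  · intro x hx
    obtain ⟨n, hn, -⟩ := mem_iUnion.1 hx
    exact (hCm x).1 ⟨n, hn⟩

end

end Pool.Agent.R594.Lp
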