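import Mathlib
import Pool.Agent.R594.Lp.Main
import Pool.Agent.Helper47.LP.Main

/-!
# A clopen base and perfect normality of `L_p(X)` give strong zero-dimensionality
-/

set_option autoImplicit false

open Topology Set Filter TopologicalSpace

namespace Pool.Agent.R594.Lp

theorem sz_of_key {X : Type*} [TopologicalSpace X]
    (key : ∀ B : Set X, IsClosed B → ∃ C : ℕ → Set X, (∀ n, IsClopen (C n)) ∧
      (⋃ n, C n) = Bᶜ) : SZ X := by
  classical
  intro f hf a b hab
  obtain ⟨C, hC, hCu⟩ := key {x | b ≤ f x} (isClosed_le continuous_const hf)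
  obtain ⟨D, hD, hDu⟩ := key {x | f x ≤ a} (isClosed_le hf continuous_const)
  have hCm : ∀ x, (∃ n, x ∈ C n) ↔ f x < b := by
    intro x
    rw [← mem_iUnion, hCu]; simp
  have hDm : ∀ x, (∃ n, x ∈ D n) ↔ a < f x := by
    intro x
    rw [← mem_iUnion, hDu]; simp
  let U : Set X := ⋃ n, (C n \ ⋃ m ∈ Finset.range n, D m)
  let V : Set X := ⋃ n, (D n \ ⋃ m ∈ Finset.range (n+1), C m)
  have hUo : IsOpen U := isOpen_iUnion fun n =>
    (hC n).isOpen.sdiff (isClosed_biUnion_finset fun m _ => (hD m).isClosed)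
  have hVo : IsOpen V := isOpen_iUnion fun n =>
    (hD n).isOpen.sdiff (isClosed_biUnion_finset fun m _ => (hC m).isClosed)
  have hUV : Uᶜ = V := by
    ext x
    have hex : ∃ n, x ∈ C n ∨ x ∈ D n := by
      rcases lt_or_ge (f x) b with h1 | h1
      · obtain ⟨n, hn⟩ := (hCm x).2 h1; exact ⟨n, Or.inl hn⟩
      · obtain ⟨n, hn⟩ := (hDm x).2 (lt_of_lt_of_le hab h1); exact ⟨n, Or.inr hn⟩
    simp only [U, V, mem_compl_iff, mem_iUnion, Set.mem_sdiff, Finset.mem_range, not_exists,
      exists_prop, not_and]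
    constructor
    · intro hx
      refine ⟨Nat.find hex, ?_⟩
      have hC' : x ∉ C (Nat.find hex) := by
        intro hc
        have := hx _ hc
        push Not at this
        obtain ⟨m, hm, hm'⟩ := this
        exact Nat.find_min hex hm (Or.inr hm')
      refine ⟨(Nat.find_spec hex).resolve_left hC', ?_⟩
      intro m hm hcm
      rcases Nat.lt_succ_iff_lt_or_eq.1 hm with h1 | h1
      · exact Nat.find_min hex h1 (Or.inl hcm)
      · exact hC' (h1 ▸ hcm)
    · rintro ⟨n, hn, hn'⟩ m hm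
      push Not
      refine ⟨n, ?_, hn⟩
      by_contra hcon
      exact hn' m (by omega) hm
  refine ⟨U, ⟨?_, hUo⟩, ?_, ?_⟩
  · rw [← isOpen_compl_iff, hUV]; exact hVo
  · intro x hx
    obtain ⟨n, hn⟩ := (hCm x).2 (lt_of_le_of_lt hx hab)
    refine mem_iUnion.2 ⟨n, hn, ?_⟩
    simp only [mem_iUnion, exists_prop, not_exists, not_and]
    intro m _ hm
    exact absurd ((hDm x).1 ⟨m, hm⟩) (not_lt.2 hx)
  · intro x hx
    obtain ⟨n, hn, -⟩ := mem_iUnion.1 hx
    exact (hCm x).1 ⟨n, hn⟩


theorem key_AA {X : Type} [TopologicalSpace X] (hb : IsTopologicalBasis {s : Set X | IsClopen s})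
    (h : ClSep {f : X → ℕ × (ℕ → Bool) // Continuous f}) (B : Set X) (hB : IsClosed B) :
    ∃ C : ℕ → Set X, (∀ n, IsClopen (C n)) ∧ (⋃ n, C n) = Bᶜ := by
  classical
  let p : ℕ → ℕ × (ℕ → Bool) := fun n => (n, fun _ => false)
  let Φ : Set {f : X → ℕ × (ℕ → Bool) // Continuous f} :=
    {u | (∀ x, u.1 x = p 0 ∨ u.1 x = p 1) ∧ ∀ x ∈ B, u.1 x = p 0}
  have hev : ∀ x : X, Continuous fun u : {f : X → ℕ × (ℕ → Bool) // Continuous f} => u.1 x :=
    fun x => (continuous_apply x).comp continuous_subtype_val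
  have hΦ : IsClosed Φ := by
    have : Φ = (⋂ x, {u : {f : X → ℕ × (ℕ → Bool) // Continuous f} | u.1 x = p 0 ∨ u.1 x = p 1}) ∩
        ⋂ x ∈ B, {u : {f : X → ℕ × (ℕ → Bool) // Continuous f} | u.1 x = p 0} := by
      ext u; simp [Φ]
    rw [this]
    refine IsClosed.inter (isClosed_iInter fun x => ?_) (isClosed_biInter fun x _ => ?_)
    · exact (isClosed_eq (hev x) continuous_const).union (isClosed_eq (hev x) continuous_const)
    · exact isClosed_eq (hev x) continuous_const
  obtain ⟨D, hD, hDΦ, hDd⟩ := h.exists hΦ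
  have hclop : ∀ d ∈ D, IsClopen {x | (d.1 x).1 = 1} := by
    intro d hd
    have hc : Continuous fun x => (d.1 x).1 := continuous_fst.comp d.2
    exact ⟨(isClosed_singleton (x := (1:ℕ))).preimage hc, (isOpen_discrete {(1:ℕ)}).preimage hc⟩
  have hcov : (⋃ d ∈ D, {x | (d.1 x).1 = 1}) = Bᶜ := by
    ext x
    simp only [mem_iUnion, mem_ofPred_eq, exists_prop, mem_compl_iff]
    constructor
    · rintro ⟨d, hd, hdx⟩ hx
      have := (hDΦ hd).2 x hx
      rw [this] at hdx
      exact absurd hdx (by norm_num [p])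
    · intro hx
      obtain ⟨V, hV, hxV, hVB⟩ := hb.exists_subset_of_mem_open (mem_compl hx) hB.isOpen_compl
      have hvc : Continuous (fun x => if x ∈ V then p 1 else p 0) := by
        rw [continuous_iff_continuousAt]
        intro z
        by_cases hz : z ∈ V
        · refine ContinuousAt.congr (f := fun _ => p 1) continuousAt_const ?_
          filter_upwards [hV.isOpen.mem_nhds hz] with w hw
          rw [if_pos hw]
        · refine ContinuousAt.congr (f := fun _ => p 0) continuousAt_const ?_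
          filter_upwards [hV.compl.isOpen.mem_nhds hz] with w hw
          rw [if_neg hw]
      let v : {f : X → ℕ × (ℕ → Bool) // Continuous f} := ⟨fun x => if x ∈ V then p 1 else p 0, hvc⟩
      have hv1 : ∀ y ∈ V, v.1 y = p 1 := fun y hy => if_pos hy
      have hv0 : ∀ y, y ∉ V → v.1 y = p 0 := fun y hy => if_neg hy
      have hvΦ : v ∈ Φ := by
        refine ⟨fun y => ?_, fun y hy => hv0 y fun hyV => hVB hyV hy⟩
        by_cases hyV : y ∈ V
        · exact Or.inr (hv1 y hyV)
        · exact Or.inl (hv0 y hyV)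
      obtain ⟨d, hd1, hd2⟩ := mem_closure_iff.1 (hDd hvΦ)
        ((fun u : {f : X → ℕ × (ℕ → Bool) // Continuous f} => (u.1 x).1) ⁻¹' {1})
        ((isOpen_discrete {(1:ℕ)}).preimage (continuous_fst.comp (hev x)))
        (by show (v.1 x).1 = 1; rw [hv1 x hxV])
      exact ⟨d, hd2, hd1⟩
  have hcount : ((fun d : {f : X → ℕ × (ℕ → Bool) // Continuous f} => {x | (d.1 x).1 = 1}) '' D
      ∪ {∅}).Countable := (hD.image _).union (countable_singleton _)
  obtain ⟨C, hC⟩ := hcount.exists_eq_range ⟨∅, Or.inr rfl⟩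
  refine ⟨C, fun n => ?_, ?_⟩
  · have : C n ∈ (fun d : {f : X → ℕ × (ℕ → Bool) // Continuous f} => {x | (d.1 x).1 = 1}) '' D
        ∪ {∅} := by
      rw [hC]; exact mem_range_self n
    rcases this with ⟨d, hd, hd'⟩ | hd
    · rw [← hd']; exact hclop d hd
    · rw [mem_singleton_iff.1 hd]; exact isClopen_empty
  · rw [← hcov, ← sUnion_range, ← hC, sUnion_union, sUnion_image]
    simp

theorem clopen_main {X : Type} [TopologicalSpace X]
    (hb : IsTopologicalBasis {s : Set X | IsClopen s})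
    (hL : PerfectlyNormalSpace (Pool.Agent.Helper47.LP.Lp X)) :
    (∀ f : X → ℝ, Continuous f → ∀ a b : ℝ, a < b →
      ∃ C : Set X, IsClopen C ∧ {x | f x ≤ a} ⊆ C ∧ C ⊆ {x | f x < b}) ∧
    PerfectlyNormalSpace {g : {f : X → ℝ // Continuous f} → ℝ // Continuous g} ∧
    (∀ (n : ℕ) (S : Set (Fin n → {f : X → ℝ // Continuous f})), IsClosed S →
      SeparableSpace ↥S) := by
  have hAA : ClSep {f : X → ℕ × (ℕ → Bool) // Continuous f} := by
    intro E hE
    obtain ⟨W, hW, _, h⟩ := Pool.Agent.Helper47.LP.approx X hL E hE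
    exact Pool.Agent.Helper47.LP.sep W hW E h
  have hsz : SZ X := sz_of_key fun B hB => key_AA hb hAA B hB
  have hX : Pool.Agent.Helper937.Szd.SZ X := by
    intro f hf a b hab
    obtain ⟨U, hU, h1, h2⟩ := hsz f hf a b hab
    exact ⟨U, hU, fun x hx => h1 x hx, fun x hx => h2 x hx⟩
  have hm := Pool.Agent.Helper47.LP.main X hX hL
  exact ⟨hX, hm.2, hm.1⟩

end Pool.Agent.R594.Lp
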