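import Mathlib

/-!
# The index set `ω₁`, thinning, and Martin's axiom for `ℵ₁` dense sets
-/

set_option autoImplicit false

open Topology Set Cardinal

namespace Pool.Agent.R594.Lp

/-- `ω₁` as a type -/
abbrev W : Type := (Cardinal.ord (Cardinal.aleph.{0} 1)).ToType

theorem W_Iio (a : W) : (Iio a).Countable := by
  rw [Cardinal.countable_iff_lt_aleph_one]
  exact Cardinal.mk_Iio_toType_ord_lt a

theorem W_Iic (a : W) : (Iic a).Countable := by
  rw [← Iio_insert]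
  exact (W_Iio a).insert a

theorem W_unc : ¬ (univ : Set W).Countable := by
  rw [Cardinal.countable_iff_lt_aleph_one, Cardinal.mk_univ, Cardinal.mk_ord_toType]
  exact lt_irrefl _

theorem W_mk : #W = ℵ₁ := Cardinal.mk_ord_toType _

/-- countable sets are bounded -/
theorem W_bdd {B : Set W} (hB : B.Countable) : ∃ c : W, ∀ b ∈ B, b < c := by
  by_contra hcon
  push Not at hcon
  apply W_unc
  have : (univ : Set W) ⊆ ⋃ b ∈ B, Iic b := by
    intro c _
    obtain ⟨b, hb, hbc⟩ := hcon c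
    exact mem_iUnion₂.2 ⟨b, hb, hbc⟩
  exact (hB.biUnion fun b _ => W_Iic b).mono this

/-- uncountable sets are unbounded -/
theorem W_unb {B : Set W} (hB : ¬ B.Countable) (a : W) : ∃ b ∈ B, a < b := by
  by_contra hcon
  push Not at hcon
  exact hB ((W_Iic a).mono fun b hb => hcon b hb)

/-- thinning -/
theorem thin (g : W → W) : ∃ C : Set W, ¬ C.Countable ∧ ∀ a ∈ C, ∀ b ∈ C, a < b → g a < b := by
  let 𝒮 : Set (Set W) := {C | ∀ a ∈ C, ∀ b ∈ C, a < b → g a < b}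
  obtain ⟨C, hC⟩ := zorn_subset 𝒮 (by
    intro c hc hchain
    refine ⟨⋃₀ c, ?_, fun s hs => subset_sUnion_of_mem hs⟩
    rintro a ⟨s, hs, has⟩ b ⟨t, ht, hbt⟩ hab
    rcases hchain.total hs ht with h | h
    · exact hc ht a (h has) b hbt hab
    · exact hc hs a has b (h hbt) hab)
  refine ⟨C, fun hcount => ?_, hC.prop⟩
  obtain ⟨c, hc⟩ := W_bdd (hcount.union (hcount.image g))
  have h1 : insert c C ∈ 𝒮 := by
    intro a ha b hb hab
    rcases ha with rfl | ha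
    · rcases hb with rfl | hb
      · exact absurd hab (lt_irrefl _)
      · exact absurd hab (not_lt.2 (hc b (Or.inl hb)).le)
    · rcases hb with rfl | hb
      · exact hc _ (Or.inr ⟨a, ha, rfl⟩)
      · exact hC.prop a ha b hb hab
  have h2 : insert c C ⊆ C := hC.2 h1 (subset_insert _ _)
  exact lt_irrefl _ (hc c (Or.inl (h2 (mem_insert _ _))))

/-- The countable chain condition: every set of pairwise incompatible conditions is countable
(a smaller condition is stronger). -/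
def IsCCC (P : Type) [Preorder P] : Prop :=
  ∀ A : Set P, (∀ p ∈ A, ∀ q ∈ A, p ≠ q → ¬ ∃ r : P, r ≤ p ∧ r ≤ q) → A.Countable

/-- There is a filter in `P` which meets every member of the family `𝒟`. -/
def HasGenericFilter (P : Type) [Preorder P] (𝒟 : Set (Set P)) : Prop :=
  ∃ G : Set P, G.Nonempty ∧ (∀ p ∈ G, ∀ q : P, p ≤ q → q ∈ G) ∧
    (∀ p ∈ G, ∀ q ∈ G, ∃ r ∈ G, r ≤ p ∧ r ≤ q) ∧ ∀ D ∈ 𝒟, (G ∩ D).Nonempty

/-- Martin's axiom for `ℵ₁` dense sets. -/
def MartinAxiomAleph1 : Prop :=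
  ∀ (P : Type) [Preorder P] [Nonempty P], IsCCC P →
    ∀ 𝒟 : Set (Set P), #𝒟 ≤ ℵ₁ → (∀ D ∈ 𝒟, ∀ p : P, ∃ q ∈ D, q ≤ p) → HasGenericFilter P 𝒟

/-- Under `MA(ℵ₁)` every `ω₁`-family in a ccc preorder has an uncountable pairwise compatible
subfamily. -/
theorem ma_compat (hMA : MartinAxiomAleph1) (P : Type) [Preorder P] (hP : IsCCC P) (p : W → P) :
    ∃ A : Set W, ¬ A.Countable ∧ ∀ a ∈ A, ∀ b ∈ A, ∃ r, r ≤ p a ∧ r ≤ p b := by
  -- a condition below which all tails are dense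
  have key : ∃ a₀ : W, ∀ r ≤ p a₀, ∀ c : W, ∃ b, c ≤ b ∧ ∃ r', r' ≤ r ∧ r' ≤ p b := by
    by_contra hcon
    push Not at hcon
    choose r hr c hc using hcon
    obtain ⟨C, hCu, hC⟩ := thin c
    -- `r a`, `a ∈ C`, are pairwise incompatible
    have hinc : ∀ a ∈ C, ∀ b ∈ C, a < b → ¬ ∃ s, s ≤ r a ∧ s ≤ r b := by
      rintro a ha b hb hab ⟨s, hsa, hsb⟩
      exact hc a b (hC a ha b hb hab).le s hsa (hsb.trans (hr b))
    have hinj : InjOn r C := by
      intro a ha b hb hab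
      rcases lt_trichotomy a b with h | h | h
      · exact absurd ⟨r a, le_refl _, hab.le⟩ (hinc a ha b hb h)
      · exact h
      · exact absurd ⟨r b, le_refl _, hab.ge⟩ (hinc b hb a ha h)
    have hcount : (r '' C).Countable := by
      apply hP
      rintro _ ⟨a, ha, rfl⟩ _ ⟨b, hb, rfl⟩ hab
      rcases lt_trichotomy a b with h | h | h
      · exact hinc a ha b hb h
      · exact absurd (congrArg r h) hab
      · rintro ⟨s, h1, h2⟩
        exact hinc b hb a ha h ⟨s, h2, h1⟩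
    exact hCu (countable_of_injective_of_countable_image hinj hcount)
  obtain ⟨a₀, ha₀⟩ := key
  let Q : Type := {q : P // q ≤ p a₀}
  have : Nonempty Q := ⟨⟨p a₀, le_refl _⟩⟩
  have hQ : IsCCC Q := by
    intro A hA
    have h1 : (Subtype.val '' A : Set P).Countable := by
      apply hP
      rintro _ ⟨a, ha, rfl⟩ _ ⟨b, hb, rfl⟩ hab ⟨r, hra, hrb⟩
      exact hA a ha b hb (fun h => hab (congrArg _ h)) ⟨⟨r, hra.trans a.2⟩, hra, hrb⟩
    exact countable_of_injective_of_countable_image Subtype.val_injective.injOn h1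
  let D : W → Set Q := fun c => {q | ∃ b, c ≤ b ∧ q.1 ≤ p b}
  obtain ⟨G, -, -, hG2, hG3⟩ := hMA Q hQ (range D)
    (by rw [← W_mk]; exact Cardinal.mk_range_le) (by
      rintro _ ⟨c, rfl⟩ q
      obtain ⟨b, hcb, r', hr', hr'b⟩ := ha₀ q.1 q.2 c
      exact ⟨⟨r', hr'.trans q.2⟩, ⟨b, hcb, hr'b⟩, hr'⟩)
  refine ⟨{b | ∃ q ∈ G, q.1 ≤ p b}, fun hcount => ?_, ?_⟩
  · obtain ⟨c, hc⟩ := W_bdd hcount
    obtain ⟨q, hqG, b, hcb, hqb⟩ := hG3 (D c) ⟨c, rfl⟩
    exact absurd hcb (not_le.2 (hc b ⟨q, hqG, hqb⟩))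
  · rintro a ⟨q, hqG, hqa⟩ b ⟨q', hq'G, hq'b⟩
    obtain ⟨r, -, hr1, hr2⟩ := hG2 q hqG q' hq'G
    exact ⟨r.1, (show r.1 ≤ q.1 from hr1).trans hqa, (show r.1 ≤ q'.1 from hr2).trans hq'b⟩

end Pool.Agent.R594.Lp
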