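import Mathlib
import Pool.Agent.R594.Lp.Omega

/-!
# Kunen's theorem: under `MA(ℵ₁)`, countable spread of all finite powers implies
hereditary Lindelöfness
-/

set_option autoImplicit false

open Topology Set Cardinal

namespace Pool.Agent.R594.Lp

/-- every discrete (indexed) family is countable -/
def CtbSpread (Z : Type*) [TopologicalSpace Z] : Prop :=
  ∀ (A : Type) (y : A → Z) (O : A → Set Z), (∀ a, IsOpen (O a)) → (∀ a, y a ∈ O a) →
    (∀ a b, a ≠ b → y b ∉ O a) → Countable A

/-- hereditarily Lindelöf, in terms of neighbourhood assignments -/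
def HLin (Y : Type*) [TopologicalSpace Y] : Prop :=
  ∀ (T : Set Y) (V : Y → Set Y), (∀ x ∈ T, IsOpen (V x) ∧ x ∈ V x) →
    ∃ T' ⊆ T, T'.Countable ∧ T ⊆ ⋃ x ∈ T', V x

theorem dense_initial {Z : Type*} [TopologicalSpace Z] (hZ : CtbSpread Z) (C : Set W)
    (y : W → Z) (O : W → Set Z) (hO : ∀ a ∈ C, IsOpen (O a)) (hy : ∀ a ∈ C, y a ∈ O a)
    (hr : ∀ a ∈ C, ∀ b ∈ C, a < b → y b ∉ O a) :
    ∃ δ : W, ∀ a ∈ C, y a ∈ closure (y '' (C ∩ Iio δ)) := by
  by_contra hcon
  push Not at hcon
  choose g hgC hg using hcon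
  have hge : ∀ δ, δ ≤ g δ := by
    intro δ
    by_contra h
    push Not at h
    exact hg δ (subset_closure ⟨g δ, ⟨hgC δ, h⟩, rfl⟩)
  obtain ⟨C', hC'u, hC'⟩ := thin g
  apply hC'u
  have := hZ C' (fun a => y (g a)) (fun a => O (g a) ∩ (closure (y '' (C ∩ Iio (a : W))))ᶜ)
    (fun a => (hO _ (hgC _)).inter isClosed_closure.isOpen_compl)
    (fun a => ⟨hy _ (hgC _), hg _⟩) (by
      rintro ⟨a, ha⟩ ⟨b, hb⟩ hab ⟨h1, h2⟩
      have hab' : a ≠ b := fun h => hab (Subtype.ext h)
      rcases lt_or_gt_of_ne hab' with h | h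
      · exact hr (g a) (hgC a) (g b) (hgC b) (lt_of_lt_of_le (hC' a ha b hb h) (hge b)) h1
      · exact h2 (subset_closure ⟨g b, ⟨hgC b, hC' b hb a ha h⟩, rfl⟩))
  exact Set.countable_coe_iff.1 this

section
variable {Y : Type*} [TopologicalSpace Y]

/-- good finite sets -/
def Good (x : W → Y) (U : W → Set Y) (s : Finset W) : Prop :=
  ∀ a ∈ s, ∀ b ∈ s, a ≠ b → x a ∉ U b

/-- the forcing conditions: good finite sets, ordered by reverse inclusion -/
structure Cond (x : W → Y) (U : W → Set Y) : Type where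
  s : Finset W
  good : Good x U s

instance (x : W → Y) (U : W → Set Y) : Preorder (Cond x U) where
  le p q := q.s ⊆ p.s
  le_refl p := Finset.Subset.refl _
  le_trans p q r h1 h2 := Finset.Subset.trans h2 h1

theorem Cond.s_inj (x : W → Y) (U : W → Set Y) : Function.Injective (Cond.s : Cond x U → _) := by
  rintro ⟨s, hs⟩ ⟨t, ht⟩ h
  cases h
  rfl

theorem ccc_aux (hsp : ∀ n : ℕ, CtbSpread (Fin n → Y)) (x : W → Y) (U V : W → Set Y)
    (hU : ∀ a, IsOpen (U a)) (hV : ∀ a, IsOpen (V a)) (hxU : ∀ a, x a ∈ U a)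
    (hUV : ∀ a, closure (U a) ⊆ V a) (hr : ∀ a b, a < b → x b ∉ V a) :
    ∀ (n : ℕ) (r : Finset W) (𝒜 : Set (Finset W)), (∀ s ∈ 𝒜, s.card = n) →
      (∀ s ∈ 𝒜, Good x U (r ∪ s)) → (∀ s ∈ 𝒜, ∀ t ∈ 𝒜, s ≠ t → ¬ Good x U (r ∪ s ∪ t)) →
      𝒜.Countable := by
  intro n
  induction n with
  | zero =>
    intro r 𝒜 h1 _ _
    refine (countable_singleton (∅ : Finset W)).mono fun s hs => ?_
    exact Finset.card_eq_zero.1 (h1 s hs)
  | succ n ih =>
    intro r 𝒜 h1 h2 h3
    by_contra hunc
    by_cases hcase : ∃ a, ¬ {s ∈ 𝒜 | a ∈ s}.Countable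
    · obtain ⟨a, ha⟩ := hcase
      apply ha
      have himg : ((fun s : Finset W => s.erase a) '' {s ∈ 𝒜 | a ∈ s}).Countable := by
        have e1 : ∀ s : Finset W, a ∈ s → insert a r ∪ s.erase a = r ∪ s := by
          intro s has
          ext c
          simp only [Finset.mem_union, Finset.mem_insert, Finset.mem_erase]
          constructor
          · rintro ((rfl | h) | ⟨-, h⟩)
            · exact Or.inr has
            · exact Or.inl h
            · exact Or.inr h
          · rintro (h | h)
            · exact Or.inl (Or.inr h)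
            · by_cases hca : c = a
              · exact Or.inl (Or.inl hca)
              · exact Or.inr ⟨hca, h⟩
        apply ih (insert a r)
        · rintro _ ⟨s, ⟨hs, has⟩, rfl⟩
          show (s.erase a).card = n
          rw [Finset.card_erase_of_mem has, h1 s hs]; rfl
        · rintro _ ⟨s, ⟨hs, has⟩, rfl⟩
          show Good x U (insert a r ∪ s.erase a)
          rw [e1 s has]; exact h2 s hs
        · rintro _ ⟨s, ⟨hs, has⟩, rfl⟩ _ ⟨t, ⟨ht, hat⟩, rfl⟩ hst
          have hst' : s ≠ t := fun h => hst (by rw [h])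
          show ¬ Good x U (insert a r ∪ s.erase a ∪ t.erase a)
          have e2 : insert a r ∪ s.erase a ∪ t.erase a = r ∪ s ∪ t := by
            rw [e1 s has]
            ext c
            simp only [Finset.mem_union, Finset.mem_erase]
            constructor
            · rintro (h | ⟨-, h⟩)
              · exact Or.inl h
              · exact Or.inr h
            · rintro (h | h)
              · exact Or.inl h
              · by_cases hca : c = a
                · left; right; rw [hca]; exact has
                · exact Or.inr ⟨hca, h⟩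
          rw [e2]
          exact h3 s hs t ht hst'
      refine countable_of_injective_of_countable_image ?_ himg
      intro s hs t ht hst
      have h4 : s.erase a = t.erase a := hst
      rw [← Finset.insert_erase hs.2, ← Finset.insert_erase ht.2, h4]
    · push Not at hcase
      -- members avoiding an initial segment
      have hav : ∀ c : W, ∃ s ∈ 𝒜, ∀ a ∈ s, c < a := by
        intro c
        by_contra hcon
        push Not at hcon
        apply hunc
        have : 𝒜 ⊆ ⋃ a ∈ Iic c, {s ∈ 𝒜 | a ∈ s} := by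
          intro s hs
          obtain ⟨a, has, hac⟩ := hcon s hs
          exact mem_iUnion₂.2 ⟨a, hac, hs, has⟩
        exact ((W_Iic c).biUnion fun a _ => hcase a).mono this
      choose s hs𝒜 hsc using hav
      have hcard : ∀ c, (s c).card = n + 1 := fun c => h1 _ (hs𝒜 c)
      have hne : ∀ c, (s c).Nonempty := fun c => by
        rw [← Finset.card_pos, hcard]; omega
      let g : W → W := fun c => (s c).max' (hne c)
      have hg : ∀ c, ∀ a ∈ s c, a ≤ g c := fun c a ha => (s c).le_max' a ha
      obtain ⟨C, hCu, hC⟩ := thin g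
      have hlt : ∀ c ∈ C, ∀ d ∈ C, c < d → ∀ a ∈ s c, ∀ b ∈ s d, a < b := by
        intro c hc d hd hcd a ha b hb
        exact lt_of_le_of_lt (hg c a ha) ((hC c hc d hd hcd).trans (hsc d b hb))
      have hneq : ∀ c ∈ C, ∀ d ∈ C, c < d → s c ≠ s d := by
        intro c hc d hd hcd h
        obtain ⟨a, ha⟩ := hne c
        exact lt_irrefl a (hlt c hc d hd hcd a ha a (h ▸ ha))
      let y : W → (Fin (n+1) → Y) := fun c i => x ((s c).orderEmbOfFin (hcard c) i)
      let O : W → Set (Fin (n+1) → Y) := fun c =>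
        {z | ∀ i, z i ∈ V ((s c).orderEmbOfFin (hcard c) i)}
      have hmem : ∀ c i, (s c).orderEmbOfFin (hcard c) i ∈ s c := fun c i =>
        Finset.orderEmbOfFin_mem _ _ _
      have hO : ∀ c, IsOpen (O c) := by
        intro c
        have : O c = ⋂ i, (fun z : Fin (n+1) → Y => z i) ⁻¹'
            (V ((s c).orderEmbOfFin (hcard c) i)) := by ext z; simp [O]
        rw [this]
        exact isOpen_iInter_of_finite fun i => (hV _).preimage (continuous_apply i)
      obtain ⟨δ, hδ⟩ := dense_initial (hsp (n+1)) C y O (fun a _ => hO a)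
        (fun a _ i => hUV _ (subset_closure (hxU _))) (by
          intro a ha b hb hab hcon
          have := hcon 0
          exact hr _ _ (hlt a ha b hb hab _ (hmem a 0) _ (hmem b 0)) this)
      obtain ⟨η, hηC, hη⟩ := W_unb hCu δ
      obtain ⟨ζ, hζC, hζ⟩ := W_unb hCu η
      let G : Set (Fin (n+1) → Y) := ⋃ (i : Fin (n+1)), ⋃ b ∈ s η, {z | z i ∈ closure (U b)}
      have hG : IsClosed G := by
        refine isClosed_iUnion_of_finite fun i => ?_
        refine (s η).finite_toSet.isClosed_biUnion fun b _ => ?_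
        exact isClosed_closure.preimage (continuous_apply i)
      have hsub : y '' (C ∩ Iio δ) ⊆ G := by
        rintro _ ⟨ξ, ⟨hξC, hξ⟩, rfl⟩
        have hξη : ξ < η := lt_trans hξ hη
        have hbad := h3 _ (hs𝒜 ξ) _ (hs𝒜 η) (hneq ξ hξC η hηC hξη)
        unfold Good at hbad
        push Not at hbad
        obtain ⟨a, ha, b, hb, hab, hxa⟩ := hbad
        have g1 := h2 _ (hs𝒜 ξ)
        have g2 := h2 _ (hs𝒜 η)
        -- `a ∈ s ξ`, `b ∈ s η`
        have hfin : a ∈ s ξ ∧ b ∈ s η := by
          rw [Finset.mem_union, Finset.mem_union] at ha hb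
          by_cases ha1 : a ∈ s ξ
          · refine ⟨ha1, ?_⟩
            by_contra hb1
            have hb2 : b ∈ r ∪ s ξ := by
              rcases hb with h | h
              · exact Finset.mem_union.2 h
              · exact absurd h hb1
            exact g1 a (Finset.mem_union_right _ ha1) b hb2 hab hxa
          · exfalso
            have ha2 : a ∈ r ∪ s η := by
              rcases ha with (h | h) | h
              · exact Finset.mem_union_left _ h
              · exact absurd h ha1
              · exact Finset.mem_union_right _ h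
            by_cases hb1 : b ∈ r ∪ s η
            · exact g2 a ha2 b hb1 hab hxa
            · have hb3 : b ∈ s ξ := by
                rcases hb with (h | h) | h
                · exact absurd (Finset.mem_union_left _ h) hb1
                · exact h
                · exact absurd (Finset.mem_union_right _ h) hb1
              rcases Finset.mem_union.1 ha2 with h | h
              · exact g1 a (Finset.mem_union_left _ h) b (Finset.mem_union_right _ hb3) hab hxa
              · exact hr b a (hlt ξ hξC η hηC hξη b hb3 a h) (hUV b (subset_closure hxa))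
        obtain ⟨i, hi⟩ : ∃ i, (s ξ).orderEmbOfFin (hcard ξ) i = a := by
          have := Finset.range_orderEmbOfFin (s ξ) (hcard ξ)
          have h5 : a ∈ Set.range ((s ξ).orderEmbOfFin (hcard ξ)) := by
            rw [this]; exact hfin.1
          exact h5
        refine mem_iUnion.2 ⟨i, mem_iUnion₂.2 ⟨b, hfin.2, ?_⟩⟩
        show x ((s ξ).orderEmbOfFin (hcard ξ) i) ∈ closure (U b)
        rw [hi]
        exact subset_closure hxa
      have hζG : y ζ ∈ G := closure_minimal hsub hG (hδ ζ hζC)
      obtain ⟨i, hi⟩ := mem_iUnion.1 hζG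
      obtain ⟨b, hb, hib⟩ := mem_iUnion₂.1 hi
      exact hr b _ (hlt η hηC ζ hζC hζ b hb _ (hmem ζ i)) (hUV b hib)

/-- Kunen: under `MA(ℵ₁)` a regular space all of whose finite powers have countable spread is
hereditarily Lindelöf. -/
theorem kunen [RegularSpace Y] (hMA : MartinAxiomAleph1)
    (hsp : ∀ n : ℕ, CtbSpread (Fin n → Y)) : HLin Y := by
  classical
  intro T V hV
  by_contra hcon
  push Not at hcon
  -- right separated sequence
  have hstep : ∀ T' : Set Y, T'.Countable → T' ⊆ T → ∃ x ∈ T, x ∉ ⋃ y ∈ T', V y := by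
    intro T' hT' hsub
    have := hcon T' hsub hT'
    obtain ⟨x, hx, hx'⟩ := not_subset.1 this
    exact ⟨x, hx, hx'⟩
  obtain ⟨x₀, hx₀, -⟩ := hstep ∅ countable_empty (empty_subset _)
  let F : ∀ a : W, (∀ b : W, b < a → ↥T) → ↥T := fun a f =>
    if h : ∃ x ∈ T, x ∉ ⋃ y ∈ (range fun b : Iio a => ((f b.1 b.2 : T) : Y)), V y then
      ⟨h.choose, h.choose_spec.1⟩ else ⟨x₀, hx₀⟩
  let xs : W → ↥T := fun a => WellFounded.fix (C := fun _ => ↥T)
    (wellFounded_lt : WellFounded ((· < ·) : W → W → Prop)) F a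
  have hxs : ∀ a, xs a = F a (fun b _ => xs b) := fun a => WellFounded.fix_eq _ _ _
  have hxsep : ∀ a b, a < b → ((xs b : T) : Y) ∉ V (xs a) := by
    intro a b hab
    have hex : ∃ x ∈ T, x ∉ ⋃ y ∈ (range fun c : Iio b => ((xs c.1 : T) : Y)), V y := by
      apply hstep
      · have : Countable (Iio b) := (W_Iio b).to_subtype
        exact countable_range _
      · rintro _ ⟨c, rfl⟩; exact (xs c.1).2
    have h1 : xs b = ⟨hex.choose, hex.choose_spec.1⟩ := by
      rw [hxs b]
      exact dif_pos hex
    rw [h1]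
    intro h2
    exact hex.choose_spec.2 (mem_iUnion₂.2 ⟨_, ⟨⟨a, hab⟩, rfl⟩, h2⟩)
  -- shrink
  have hU : ∀ a : W, ∃ U : Set Y, IsOpen U ∧ ((xs a : T) : Y) ∈ U ∧ closure U ⊆ V (xs a) := by
    intro a
    have hn : V (xs a) ∈ 𝓝 ((xs a : T) : Y) :=
      (hV _ (xs a).2).1.mem_nhds (hV _ (xs a).2).2
    obtain ⟨t, ht, htc, hts⟩ := exists_mem_nhds_isClosed_subset hn
    exact ⟨interior t, isOpen_interior, mem_interior_iff_mem_nhds.2 ht,
      (closure_minimal interior_subset htc).trans hts⟩
  choose U hUo hxU hUV using hU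
  let x : W → Y := fun a => xs a
  let V' : W → Set Y := fun a => V (xs a)
  have hccc := ccc_aux hsp x U V' hUo (fun a => (hV _ (xs a).2).1) hxU hUV hxsep
  have hP : IsCCC (Cond x U) := by
    intro A hA
    have hcount : ∀ n : ℕ, (Cond.s '' {p ∈ A | p.s.card = n} : Set (Finset W)).Countable := by
      intro n
      apply hccc n ∅
      · rintro _ ⟨p, ⟨-, hp⟩, rfl⟩; exact hp
      · rintro _ ⟨p, ⟨-, -⟩, rfl⟩
        rw [Finset.empty_union]; exact p.good
      · rintro _ ⟨p, ⟨hp, -⟩, rfl⟩ _ ⟨q, ⟨hq, -⟩, rfl⟩ hpq hgood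
        rw [Finset.empty_union] at hgood
        refine hA p hp q hq (fun h => hpq (congrArg _ h)) ⟨⟨p.s ∪ q.s, hgood⟩, ?_, ?_⟩
        · exact Finset.subset_union_left
        · exact Finset.subset_union_right
    have h1 : (Cond.s '' A : Set (Finset W)) ⊆
        ⋃ n : ℕ, (Cond.s '' {p ∈ A | p.s.card = n} : Set (Finset W)) := by
      rintro _ ⟨p, hp, rfl⟩
      exact mem_iUnion.2 ⟨p.s.card, p, ⟨hp, rfl⟩, rfl⟩
    exact countable_of_injective_of_countable_image (Cond.s_inj x U).injOn
      ((countable_iUnion hcount).mono h1)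
  obtain ⟨A, hAu, hA⟩ := ma_compat hMA (Cond x U) hP (fun a => ⟨{a}, by
    intro b hb c hc hbc
    rw [Finset.mem_singleton] at hb hc
    exact absurd (hb.trans hc.symm) hbc⟩)
  apply hAu
  have := hsp 1 A (fun a _ => x a) (fun a => (fun z : Fin 1 → Y => z 0) ⁻¹' (U a))
    (fun a => (hUo a).preimage (continuous_apply 0)) (fun a => hxU a) (by
      rintro ⟨a, ha⟩ ⟨b, hb⟩ hab hcon
      obtain ⟨r, hra, hrb⟩ := hA a ha b hb
      have h1 : a ∈ r.s := hra (Finset.mem_singleton_self a)
      have h2 : b ∈ r.s := hrb (Finset.mem_singleton_self b)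
      exact r.good b h2 a h1 (fun h => hab (Subtype.ext h.symm)) hcon)
  exact Set.countable_coe_iff.1 this

end

end Pool.Agent.R594.Lp
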