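import Mathlib
import Pool.Agent.R594.Lp.Main

/-!
# If all finite powers of `C_p(X)` are closed-separable then `L_p(X)` is perfectly normal
-/

set_option autoImplicit false

open Topology Set Filter TopologicalSpace

namespace Pool.Agent.R594.Lp

section
variable {X : Type*} [TopologicalSpace X]

theorem sepCover_of_countable {L : Type*} [TopologicalSpace L] {A B : Set L}
    (𝒰 : Set (Set L)) (hc : 𝒰.Countable) (ho : ∀ U ∈ 𝒰, IsOpen U ∧ Disjoint (closure U) B)
    (hA : A ⊆ ⋃₀ 𝒰) : HasSeparatingCover A B := by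
  have hcount : (𝒰 ∪ {∅}).Countable := hc.union (countable_singleton _)
  obtain ⟨C, hC⟩ := hcount.exists_eq_range ⟨∅, Or.inr rfl⟩
  refine ⟨C, ?_, fun n => ?_⟩
  · intro x hx
    obtain ⟨U, hU, hxU⟩ := hA hx
    have : U ∈ range C := by rw [← hC]; exact Or.inl hU
    obtain ⟨n, rfl⟩ := this
    exact mem_iUnion.2 ⟨n, hxU⟩
  · have : C n ∈ 𝒰 ∪ {∅} := by rw [hC]; exact mem_range_self n
    rcases this with h | h
    · exact ho _ h
    · rw [mem_singleton_iff.1 h]; simp

/-- normality and perfectness from separating covers -/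
theorem perfect_of_covers {L : Type*} [TopologicalSpace L]
    (h : ∀ F : Set L, IsClosed F → HasSeparatingCover Fᶜ F) :
    NormalSpace L ∧ ∀ s : Set L, IsClosed s → IsGδ s := by
  constructor
  · refine ⟨fun A B hA hB hAB => ?_⟩
    rw [← hasSeparatingCovers_iff_separatedNhds]
    constructor
    · obtain ⟨u, hu, hu'⟩ := h B hB
      exact ⟨u, (fun x hx => hu (fun hxB => hAB.le_bot ⟨hx, hxB⟩)), hu'⟩
    · obtain ⟨u, hu, hu'⟩ := h A hA
      exact ⟨u, (fun x hx => hu (fun hxA => hAB.le_bot ⟨hxA, hx⟩)), hu'⟩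
  · intro s hs
    obtain ⟨u, hu, hu'⟩ := h s hs
    have : s = ⋂ n, (closure (u n))ᶜ := by
      ext x
      simp only [mem_iInter, mem_compl_iff]
      constructor
      · intro hx n hn
        exact (hu' n).2.le_bot ⟨hn, hx⟩
      · intro hx
        by_contra hcon
        obtain ⟨n, hn⟩ := mem_iUnion.1 (hu hcon)
        exact hx n (subset_closure hn)
    rw [this]
    exact IsGδ.iInter fun n => (isClosed_closure.isOpen_compl).isGδ

/-- evaluation of a functional on `C_p(X)` -/
def ev (ψ : LpS X) (f : Cp X) : ℝ := ψ.1 ⟨f.1, f.2⟩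

theorem ev_cont_left (f : Cp X) : Continuous fun ψ : LpS X => ev ψ f :=
  (continuous_apply _).comp continuous_subtype_val

theorem ev_cont_right (ψ : LpS X) : Continuous fun f : Cp X => ev ψ f := by
  obtain ⟨a, ha⟩ := ψ.2
  have h : (fun f : Cp X => ev ψ f) = fun f : Cp X => ∑ x ∈ a.support, a x * f.1 x := by
    funext f
    unfold ev
    rw [← ha]
    rfl
  rw [h]
  refine continuous_finsetSum _ fun x _ => continuous_const.mul ?_
  exact (continuous_apply x).comp continuous_subtype_val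

theorem ev_smul (ψ : LpS X) (c : ℝ) (f : C(X, ℝ)) :
    ev ψ (⟨fun x => c * f x, continuous_const.mul f.continuous⟩ : Cp X) = c * ψ.1 f := by
  obtain ⟨a, ha⟩ := ψ.2
  unfold ev
  rw [← ha]
  show (a.sum fun x r => r * (c * f x)) = c * a.sum fun x r => r * f x
  rw [Finsupp.mul_sum]
  exact Finsupp.sum_congr fun x _ => by ring

theorem perfNormal_of_pow (h : ∀ k : ℕ, ClSep (Fin k → Cp X)) :
    NormalSpace (LpS X) ∧ ∀ s : Set (LpS X), IsClosed s → IsGδ s := by
  classical
  refine perfect_of_covers fun F hF => ?_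
  let Φ : (p : Σ k : ℕ, (Fin k → ℚ)) → Set (Fin p.1 → Cp X) := fun p =>
    {f | ∀ ψ ∈ F, ∃ l, 1 ≤ |ev ψ (f l) - p.2 l|}
  have hΦ : ∀ p, IsClosed (Φ p) := by
    intro p
    have : Φ p = ⋂ ψ ∈ F, ⋃ l, {f : Fin p.1 → Cp X | 1 ≤ |ev ψ (f l) - p.2 l|} := by
      ext f; simp [Φ]
    rw [this]
    refine isClosed_biInter fun ψ _ => isClosed_iUnion_of_finite fun l => ?_
    exact isClosed_le continuous_const
      ((((ev_cont_right ψ).comp (continuous_apply l)).sub continuous_const).abs)
  choose D hD hDΦ hDd using fun p => (h p.1).exists (hΦ p)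
  let U : (p : Σ k : ℕ, (Fin k → ℚ)) → (Fin p.1 → Cp X) → Set (LpS X) := fun p d =>
    {ψ | ∀ l, |ev ψ (d l) - p.2 l| < 1/2}
  refine sepCover_of_countable (⋃ p, U p '' D p) ?_ ?_ ?_
  · exact countable_iUnion fun p => (hD p).image _
  · intro V hV
    obtain ⟨p, d, hd, rfl⟩ := mem_iUnion.1 hV
    constructor
    · have : U p d = ⋂ l, {ψ : LpS X | |ev ψ (d l) - p.2 l| < 1/2} := by
        ext ψ; simp [U]
      rw [this]
      exact isOpen_iInter_of_finite fun l =>
        isOpen_lt ((ev_cont_left (d l)).sub continuous_const).abs continuous_const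
    · have hcl : IsClosed {ψ : LpS X | ∀ l, |ev ψ (d l) - p.2 l| ≤ 1/2} := by
        have : {ψ : LpS X | ∀ l, |ev ψ (d l) - p.2 l| ≤ 1/2}
            = ⋂ l, {ψ : LpS X | |ev ψ (d l) - p.2 l| ≤ 1/2} := by
          ext ψ; simp
        rw [this]
        exact isClosed_iInter fun l =>
          isClosed_le ((ev_cont_left (d l)).sub continuous_const).abs continuous_const
      have hsub : closure (U p d) ⊆ {ψ : LpS X | ∀ l, |ev ψ (d l) - p.2 l| ≤ 1/2} :=
        closure_minimal (fun ψ hψ l => (hψ l).le) hcl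
      rw [Set.disjoint_left]
      intro ψ hψ hψF
      obtain ⟨l, hl⟩ := hDΦ p hd ψ hψF
      have := hsub hψ l
      linarith
  · intro φ hφ
    obtain ⟨O, hO, hOF⟩ := isOpen_induced_iff.1 hF.isOpen_compl
    have hφO : φ.1 ∈ O := by
      have : φ ∈ Subtype.val ⁻¹' O := by rw [hOF]; exact hφ
      exact this
    obtain ⟨I, u, hu, hIu⟩ := isOpen_pi_iff.1 hO φ.1 hφO
    have hball : ∀ f : C(X, ℝ), ∃ ε : ℝ, 0 < ε ∧ (f ∈ I → Metric.ball (φ.1 f) ε ⊆ u f) := by
      intro f
      by_cases hf : f ∈ I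
      · obtain ⟨ε, hε, hε'⟩ := Metric.isOpen_iff.1 (hu f hf).1 _ (hu f hf).2
        exact ⟨ε, hε, fun _ => hε'⟩
      · exact ⟨1, one_pos, fun h => absurd h hf⟩
    choose ε hε hε' using hball
    let eq := I.equivFin
    let g : Fin I.card → Cp X := fun l =>
      ⟨fun x => (2 / ε (eq.symm l).1) * (eq.symm l).1 x,
        continuous_const.mul (eq.symm l).1.continuous⟩
    have hq : ∀ l, ∃ q : ℚ, |ev φ (g l) - q| < 1/2 := by
      intro l
      obtain ⟨q, hq1, hq2⟩ := exists_rat_btwn (show ev φ (g l) - 1/2 < ev φ (g l) by linarith)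
      refine ⟨q, ?_⟩
      rw [abs_lt]
      constructor <;> linarith
    choose q hq using hq
    let p : Σ k : ℕ, (Fin k → ℚ) := ⟨I.card, q⟩
    have hgΦ : g ∈ Φ p := by
      intro ψ hψ
      by_contra hcon
      push Not at hcon
      have hψO : ψ.1 ∈ O := by
        apply hIu
        intro f hf
        apply hε' f hf
        rw [Metric.mem_ball, Real.dist_eq]
        have h1 : ∀ ψ : LpS X, ev ψ (g (eq ⟨f, hf⟩)) = 2 / ε f * ψ.1 f := by
          intro ψ
          have h2 := ev_smul ψ (2 / ε f) f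
          have h3 : g (eq ⟨f, hf⟩) = (⟨fun x => 2 / ε f * f x,
              continuous_const.mul f.continuous⟩ : Cp X) := by
            apply Subtype.ext
            show (fun x => (2 / ε (eq.symm (eq ⟨f, hf⟩)).1) * (eq.symm (eq ⟨f, hf⟩)).1 x) = _
            rw [Equiv.symm_apply_apply]
          rw [h3]; exact h2
        have h4 := abs_lt.1 (hcon (eq ⟨f, hf⟩))
        have h5 := abs_lt.1 (hq (eq ⟨f, hf⟩))
        rw [h1 ψ] at h4
        rw [h1 φ] at h5
        have h6 : |2 / ε f * (ψ.1 f - φ.1 f)| < 2 := by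
          rw [abs_lt]
          have h7 : (p.2 (eq ⟨f, hf⟩) : ℝ) = (q (eq ⟨f, hf⟩) : ℝ) := rfl
          rw [h7] at h4
          constructor <;> nlinarith
        rw [abs_mul, abs_of_pos (div_pos two_pos (hε f))] at h6
        have h8 := mul_lt_mul_of_pos_left h6 (hε f)
        have h9 : ε f * (2 / ε f * |ψ.1 f - φ.1 f|) = 2 * |ψ.1 f - φ.1 f| := by
          have h10 := (hε f).ne'
          field_simp
        rw [h9] at h8
        linarith
      have : ψ ∈ Fᶜ := by rw [← hOF]; exact hψO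
      exact this hψ
    have h1 := hDd p hgΦ
    rw [mem_closure_iff] at h1
    have hopen : IsOpen {f : Fin p.1 → Cp X | ∀ l, |ev φ (f l) - p.2 l| < 1/2} := by
      have : {f : Fin p.1 → Cp X | ∀ l, |ev φ (f l) - p.2 l| < 1/2}
          = ⋂ l, {f : Fin p.1 → Cp X | |ev φ (f l) - p.2 l| < 1/2} := by
        ext f; simp
      rw [this]
      exact isOpen_iInter_of_finite fun l =>
        isOpen_lt (((ev_cont_right φ).comp (continuous_apply l)).sub continuous_const).abs
          continuous_const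
    obtain ⟨d, hd1, hd2⟩ := h1 _ hopen (fun l => hq l)
    exact ⟨U p d, mem_iUnion.2 ⟨p, d, hd2, rfl⟩, hd1⟩

end

end Pool.Agent.R594.Lp
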