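import Mathlib
import Pool.Agent.R594.Lp.Normal

/-!
# Closed separability of `C_p(X)` implies that closed subsets of `L_p(X)` are `G_δ`
(arbitrary Tychonoff `X`)
-/

set_option autoImplicit false

open Topology Set Filter TopologicalSpace

namespace Pool.Agent.R594.Lp

section basics
variable {X : Type*} [TopologicalSpace X]

theorem ext_ev {ψ φ : LpS X} (h : ∀ f : Cp X, ev ψ f = ev φ f) : ψ = φ := by
  apply Subtype.ext
  funext f
  exact h ⟨f, f.continuous⟩

theorem rep (ψ : LpS X) : ∃ (n : ℕ) (z : Fin n → X) (c : Fin n → ℝ), Function.Injective z ∧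
    (∀ i, c i ≠ 0) ∧ ∀ f : Cp X, ev ψ f = ∑ i, c i * f.1 (z i) := by
  obtain ⟨a, ha⟩ := ψ.2
  let e := a.support.equivFin
  refine ⟨a.support.card, fun i => (e.symm i).1, fun i => a (e.symm i).1, ?_, ?_, ?_⟩
  · intro i j hij
    exact e.symm.injective (Subtype.ext hij)
  · intro i
    exact Finsupp.mem_support_iff.1 (e.symm i).2
  · intro f
    unfold ev
    rw [← ha]
    show ∑ x ∈ a.support, a x * f.1 x = _
    rw [← Finset.sum_coe_sort]
    exact (Equiv.sum_comp e.symm (fun x : a.support => a x.1 * f.1 x.1)).symm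

/-- the functional `∑ cᵢ δ_{zᵢ}` -/
noncomputable def mk {n : ℕ} (z : Fin n → X) (c : Fin n → ℝ) : LpS X :=
  ⟨fun f => ∑ i, c i * f (z i), ⟨∑ i, Finsupp.single (z i) (c i), by
    funext f
    show (∑ i, Finsupp.single (z i) (c i)).sum (fun x r => r * f x) = ∑ i, c i * f (z i)
    rw [← Finsupp.sum_finsetSum_index (fun x => by simp) (fun x r s => by ring)]
    refine Finset.sum_congr rfl fun i _ => ?_
    rw [Finsupp.sum_single_index (by simp)]⟩⟩

theorem ev_mk {n : ℕ} (z : Fin n → X) (c : Fin n → ℝ) (f : Cp X) :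
    ev (mk z c) f = ∑ i, c i * f.1 (z i) := rfl

theorem mk_cont (n : ℕ) : Continuous fun p : (Fin n → X) × (Fin n → ℝ) => mk p.1 p.2 := by
  refine Continuous.subtype_mk (continuous_pi fun f => ?_) _
  refine continuous_finsetSum _ fun i _ => ?_
  exact ((continuous_apply i).comp continuous_snd).mul
    (f.continuous.comp ((continuous_apply i).comp continuous_fst))

/-- product in `C_p(X)` -/
def mc (f g : Cp X) : Cp X := ⟨fun x => f.1 x * g.1 x, f.2.mul g.2⟩

/-- absolute value in `C_p(X)` -/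
def ab (f : Cp X) : Cp X := ⟨fun x => |f.1 x|, f.2.abs⟩

/-- plateau function -/
def pl (t : ℝ) : ℝ := max 0 (min 1 (2 - 4 * |t|))

theorem pl_cont : Continuous pl := by
  unfold pl; fun_prop

theorem pl_eq_one {t : ℝ} : pl t = 1 ↔ |t| ≤ 1/4 := by
  unfold pl
  constructor
  · intro h
    by_contra hcon
    push Not at hcon
    have : max 0 (min 1 (2 - 4 * |t|)) < 1 := by
      rw [max_lt_iff]
      exact ⟨one_pos, lt_of_le_of_lt (min_le_right _ _) (by linarith)⟩
    linarith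
  · intro h
    rw [min_eq_left (by linarith), max_eq_right (by norm_num)]

theorem pl_eq_zero {t : ℝ} (h : 1/2 ≤ |t|) : pl t = 0 := by
  unfold pl
  rw [max_eq_left]
  exact (min_le_right _ _).trans (by linarith)

/-- the `i`-th plateau of `f` -/
def ht (f : Cp X) (i : ℕ) : Cp X := ⟨fun x => pl (f.1 x - i), pl_cont.comp (f.2.sub continuous_const)⟩

theorem ht_mul (f : Cp X) {i j : ℕ} (hij : i ≠ j) (x : X) : (ht f i).1 x * (ht f j).1 x = 0 := by
  show pl (f.1 x - i) * pl (f.1 x - j) = 0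
  by_cases h : 1/2 ≤ |f.1 x - i|
  · rw [pl_eq_zero h, zero_mul]
  · have h2 : 1/2 ≤ |f.1 x - j| := by
      by_contra h3
      push Not at h h3
      rw [abs_lt] at h h3
      rcases lt_or_gt_of_ne hij with h4 | h4
      · have : (i : ℝ) + 1 ≤ j := by exact_mod_cast h4
        linarith
      · have : (j : ℝ) + 1 ≤ i := by exact_mod_cast h4
        linarith
    rw [pl_eq_zero h2, mul_zero]

end basics

section tych
variable {X : Type*} [TopologicalSpace X] [T35Space X]

theorem bump {x : X} {V : Set X} (hV : IsOpen V) (hx : x ∈ V) :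
    ∃ g : X → ℝ, Continuous g ∧ (∀ y, 0 ≤ g y) ∧ g x = 1 ∧ ∀ y, g y ≠ 0 → y ∈ V := by
  obtain ⟨f, hf, hf0, hf1⟩ := CompletelyRegularSpace.completely_regular x Vᶜ hV.isClosed_compl
    (fun h => h hx)
  refine ⟨fun y => 1 - (f y : ℝ), continuous_const.sub (continuous_subtype_val.comp hf),
    fun y => by linarith [(f y).2.2], by simp [hf0], fun y hy => ?_⟩
  by_contra hcon
  have := hf1 hcon
  apply hy
  simp [this]

/-- prescribed values on finitely many points -/
theorem exists_fun {n : ℕ} (z : Fin n → X) (hz : Function.Injective z) (c : Fin n → ℝ) :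
    ∃ f : Cp X, ∀ i, f.1 (z i) = c i := by
  classical
  have H : ∀ i, ∃ g : X → ℝ, Continuous g ∧ (∀ y, 0 ≤ g y) ∧ g (z i) = 1 ∧
      ∀ y, g y ≠ 0 → y ∈ ((z '' {i}ᶜ : Set X))ᶜ := by
    intro i
    refine bump ((toFinite (z '' {i}ᶜ)).isClosed.isOpen_compl) ?_
    rintro ⟨j, hj, hji⟩
    exact hj (hz hji)
  choose g hg hg0 hg1 hg2 using H
  refine ⟨⟨fun x => ∑ i, c i * g i x,
    continuous_finsetSum _ fun i _ => continuous_const.mul (hg i)⟩, fun i => ?_⟩
  show ∑ j, c j * g j (z i) = c i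
  rw [Finset.sum_eq_single i]
  · rw [hg1, mul_one]
  · intro j _ hji
    have : g j (z i) = 0 := by
      by_contra hne
      exact hg2 j _ hne ⟨i, fun h => hji (by simpa using h.symm), rfl⟩
    rw [this, mul_zero]
  · intro h; exact absurd (Finset.mem_univ i) h

/-- a multiplicative localization of a functional is a point evaluation -/
theorem mult_point (ψ : LpS X) (h : Cp X) (hc : ev ψ h ≠ 0)
    (hm : ∀ g₁ g₂ : Cp X, ev ψ (mc h (mc g₁ g₂)) * ev ψ h = ev ψ (mc h g₁) * ev ψ (mc h g₂)) :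
    ∃ z : X, ∀ g : Cp X, ev ψ (mc h g) = ev ψ h * g.1 z := by
  classical
  obtain ⟨n, z, c, hz, -, hev⟩ := rep ψ
  have hev' : ∀ g : Cp X, ev ψ (mc h g) = ∑ i, (c i * h.1 (z i)) * g.1 (z i) := by
    intro g
    rw [hev]
    exact Finset.sum_congr rfl fun i _ => by show c i * (h.1 (z i) * g.1 (z i)) = _; ring
  -- bumps
  have hb : ∀ i : Fin n, ∃ g : Cp X, ∀ j, g.1 (z j) = if j = i then 1 else 0 :=
    fun i => exists_fun z hz _
  choose b hb using hb
  have hbv : ∀ i, ev ψ (mc h (b i)) = c i * h.1 (z i) := by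
    intro i
    rw [hev', Finset.sum_eq_single i]
    · rw [hb]; simp
    · intro j _ hji; rw [hb]; simp [hji]
    · intro h; exact absurd (Finset.mem_univ i) h
  have hne : ∃ i, c i * h.1 (z i) ≠ 0 := by
    by_contra hcon
    push Not at hcon
    apply hc
    rw [hev]
    exact Finset.sum_eq_zero fun i _ => hcon i
  obtain ⟨i, hi⟩ := hne
  have hii : c i * h.1 (z i) = ev ψ h := by
    have h1 := hm (b i) (b i)
    have h2 : ev ψ (mc h (mc (b i) (b i))) = c i * h.1 (z i) := by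
      rw [hev', Finset.sum_eq_single i]
      · show _ * ((b i).1 (z i) * (b i).1 (z i)) = _
        rw [hb]; simp
      · intro j _ hji
        show _ * ((b i).1 (z j) * (b i).1 (z j)) = _
        rw [hb]; simp [hji]
      · intro h; exact absurd (Finset.mem_univ i) h
    rw [h2, hbv] at h1
    exact (mul_left_cancel₀ hi h1).symm
  have hjj : ∀ j, j ≠ i → c j * h.1 (z j) = 0 := by
    intro j hj
    have h1 := hm (b i) (b j)
    have h2 : ev ψ (mc h (mc (b i) (b j))) = 0 := by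
      rw [hev']
      refine Finset.sum_eq_zero fun l _ => ?_
      show _ * ((b i).1 (z l) * (b j).1 (z l)) = _
      rw [hb, hb]
      by_cases hl : l = i
      · have : l ≠ j := fun h => hj (h ▸ hl)
        simp [this]
      · simp [hl]
    rw [h2, hbv, hbv, zero_mul] at h1
    exact (mul_eq_zero.1 h1.symm).resolve_left hi
  refine ⟨z i, fun g => ?_⟩
  rw [hev', Finset.sum_eq_single i, hii]
  · intro j _ hji; rw [hjj j hji, zero_mul]
  · intro h; exact absurd (Finset.mem_univ i) h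

/-- index type of the countable family of closed sets -/
structure Idx (X : Type*) [TopologicalSpace X] where
  n : ℕ
  f : Cp X
  p : Fin n → ℚ
  q : Fin n → ℚ

/-- the closed test sets in `C_p(X)` -/
def PhiF (F : Set (LpS X)) (t : Idx X) : Set (Cp X) :=
  {g | ∀ (y : Fin t.n → X) (a : Fin t.n → ℝ), (∀ i, |t.f.1 (y i) - (i : ℕ)| ≤ 1/4) →
    (∀ i, (t.p i : ℝ) ≤ a i ∧ a i ≤ t.q i) → mk y a ∈ F → ∏ i, g.1 (y i) = 0}

/-- the closed sets in `L_p(X)` -/
def KF (t : Idx X) (d : Cp X) : Set (LpS X) :=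
  {ψ | (∀ i, 0 < t.p i * t.q i) ∧ (∀ g : Cp X, ev ψ g = ∑ i : Fin t.n, ev ψ (mc (ht t.f i) g)) ∧
    (∀ i : Fin t.n, (t.p i : ℝ) ≤ ev ψ (ht t.f i) ∧ ev ψ (ht t.f i) ≤ t.q i) ∧
    (∀ (i : Fin t.n) (g₁ g₂ : Cp X), ev ψ (mc (ht t.f i) (mc g₁ g₂)) * ev ψ (ht t.f i)
      = ev ψ (mc (ht t.f i) g₁) * ev ψ (mc (ht t.f i) g₂)) ∧
    (∀ i : Fin t.n, |ev ψ (ht t.f i)| ≤ 2 * |ev ψ (mc (ht t.f i) (ab d))|)}

theorem KF_closed (t : Idx X) (d : Cp X) : IsClosed (KF t d) := by
  by_cases h0 : ∀ i, 0 < t.p i * t.q i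
  · have : KF t d = (⋂ g : Cp X, {ψ : LpS X | ev ψ g = ∑ i : Fin t.n, ev ψ (mc (ht t.f i) g)}) ∩
      ((⋂ i : Fin t.n, {ψ : LpS X | (t.p i : ℝ) ≤ ev ψ (ht t.f i)} ∩
          {ψ : LpS X | ev ψ (ht t.f i) ≤ t.q i}) ∩
      ((⋂ i : Fin t.n, ⋂ g₁ : Cp X, ⋂ g₂ : Cp X, {ψ : LpS X |
        ev ψ (mc (ht t.f i) (mc g₁ g₂)) * ev ψ (ht t.f i)
          = ev ψ (mc (ht t.f i) g₁) * ev ψ (mc (ht t.f i) g₂)}) ∩
      (⋂ i : Fin t.n, {ψ : LpS X | |ev ψ (ht t.f i)| ≤ 2 * |ev ψ (mc (ht t.f i) (ab d))|}))) := by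
      ext ψ
      simp only [KF, mem_ofPred_eq, mem_inter_iff, mem_iInter]
      constructor
      · rintro ⟨-, h1, h2, h3, h4⟩; exact ⟨h1, h2, h3, h4⟩
      · rintro ⟨h1, h2, h3, h4⟩; exact ⟨h0, h1, h2, h3, h4⟩
    rw [this]
    refine IsClosed.inter (isClosed_iInter fun g => ?_) (IsClosed.inter
      (isClosed_iInter fun i => ?_) (IsClosed.inter
      (isClosed_iInter fun i => isClosed_iInter fun g₁ => isClosed_iInter fun g₂ => ?_)
      (isClosed_iInter fun i => ?_)))
    · exact isClosed_eq (ev_cont_left g) (continuous_finsetSum _ fun i _ => ev_cont_left _)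
    · exact (isClosed_le continuous_const (ev_cont_left _)).inter
        (isClosed_le (ev_cont_left _) continuous_const)
    · exact isClosed_eq ((ev_cont_left _).mul (ev_cont_left _))
        ((ev_cont_left _).mul (ev_cont_left _))
    · exact isClosed_le (ev_cont_left _).abs (continuous_const.mul (ev_cont_left _).abs)
  · have : KF t d = ∅ := by
      ext ψ
      simp only [KF, mem_ofPred_eq, mem_empty_iff_false, iff_false]
      intro h; exact h0 h.1
    rw [this]; exact isClosed_empty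

theorem mc_comm (f g : Cp X) : mc f g = mc g f := Subtype.ext (funext fun _ => mul_comm _ _)

/-- elements of `KF t d` -/
theorem KF_rep {t : Idx X} {d : Cp X} {ψ : LpS X} (h : ψ ∈ KF t d) :
    ∃ (z : Fin t.n → X) (c : Fin t.n → ℝ), ψ = mk z c ∧
      (∀ i, |t.f.1 (z i) - (i : ℕ)| ≤ 1/4) ∧ (∀ i, (t.p i : ℝ) ≤ c i ∧ c i ≤ t.q i) ∧
      ∀ i, d.1 (z i) ≠ 0 := by
  obtain ⟨h0, h1, h2, h3, h4⟩ := h
  have hc : ∀ i : Fin t.n, ev ψ (ht t.f i) ≠ 0 := by
    intro i hi
    have ha := h2 i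
    rw [hi] at ha
    have hb : (0 : ℝ) < t.p i * t.q i := by exact_mod_cast h0 i
    nlinarith [ha.1, ha.2]
  choose z hz using fun i : Fin t.n => mult_point ψ (ht t.f i) (hc i) (h3 i)
  refine ⟨z, fun i => ev ψ (ht t.f i), ?_, ?_, h2, ?_⟩
  · refine ext_ev fun g => ?_
    rw [ev_mk, h1 g]
    exact Finset.sum_congr rfl fun i _ => hz i g
  · intro i
    have h5 := h1 (ht t.f i)
    rw [Finset.sum_eq_single i] at h5
    · rw [hz i (ht t.f i)] at h5
      have h6 : (ht t.f i).1 (z i) = 1 := by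
        have := mul_left_cancel₀ (hc i) (show ev ψ (ht t.f i) * 1
          = ev ψ (ht t.f i) * (ht t.f i).1 (z i) by rw [mul_one]; exact h5)
        exact this.symm
      exact pl_eq_one.1 h6
    · intro j _ hji
      have h7 : mc (ht t.f (j : ℕ)) (ht t.f (i : ℕ)) = ⟨fun _ => (0 : ℝ), continuous_const⟩ := by
        apply Subtype.ext
        funext x
        exact ht_mul t.f (fun h => hji (Fin.ext h)) x
      rw [h7]
      obtain ⟨n, w, c, -, -, hev⟩ := rep ψ
      rw [hev]; simp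
    · intro h; exact absurd (Finset.mem_univ i) h
  · intro i hi
    have h5 := h4 i
    rw [hz i (ab d)] at h5
    have h6 : (ab d).1 (z i) = 0 := by show |d.1 (z i)| = 0; rw [hi, abs_zero]
    rw [h6, mul_zero, abs_zero, mul_zero] at h5
    exact hc i (abs_nonpos_iff.1 h5)

theorem PhiF_closed (F : Set (LpS X)) (t : Idx X) : IsClosed (PhiF F t) := by
  have : PhiF F t = ⋂ (y : Fin t.n → X) (a : Fin t.n → ℝ)
      (_ : ∀ i, |t.f.1 (y i) - (i : ℕ)| ≤ 1/4) (_ : ∀ i, (t.p i : ℝ) ≤ a i ∧ a i ≤ t.q i)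
      (_ : mk y a ∈ F), {g : Cp X | ∏ i, g.1 (y i) = 0} := by
    ext g; simp [PhiF]
  rw [this]
  refine isClosed_iInter fun y => isClosed_iInter fun a => isClosed_iInter fun _ =>
    isClosed_iInter fun _ => isClosed_iInter fun _ => ?_
  exact isClosed_eq (continuous_finsetProd _ fun i _ =>
    (continuous_apply (y i)).comp continuous_subtype_val) continuous_const

theorem KF_disj {F : Set (LpS X)} {t : Idx X} {d : Cp X} (hd : d ∈ PhiF F t) :
    Disjoint (KF t d) F := by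
  rw [Set.disjoint_left]
  intro ψ hψ hψF
  obtain ⟨z, c, rfl, h1, h2, h3⟩ := KF_rep hψ
  have := hd z c h1 h2 hψF
  exact Finset.prod_ne_zero_iff.2 (fun i _ => h3 i) this

/-- box neighbourhood for `mk` -/
theorem box_nhds {n : ℕ} {O : Set (LpS X)} (hO : IsOpen O) (x : Fin n → X) (c : Fin n → ℝ)
    (h : mk x c ∈ O) : ∃ (V : Fin n → Set X) (ε : ℝ), 0 < ε ∧ (∀ i, IsOpen (V i) ∧ x i ∈ V i) ∧
      ∀ (y : Fin n → X) (a : Fin n → ℝ), (∀ i, y i ∈ V i) → (∀ i, |a i - c i| < ε) →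
        mk y a ∈ O := by
  have h1 : IsOpen ((fun p : (Fin n → X) × (Fin n → ℝ) => mk p.1 p.2) ⁻¹' O) :=
    hO.preimage (mk_cont n)
  obtain ⟨A, B, hA, hB, hxA, hcB, hAB⟩ := isOpen_prod_iff.1 h1 x c h
  obtain ⟨I, u, hu, hIu⟩ := isOpen_pi_iff.1 hA x hxA
  obtain ⟨ε, hε, hεB⟩ := Metric.isOpen_iff.1 hB c hcB
  classical
  refine ⟨fun i => if i ∈ I then u i else univ, ε, hε, fun i => ?_, fun y a hy ha => ?_⟩
  · by_cases hi : i ∈ I
    · simp only [hi, if_true]; exact hu i hi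
    · simp only [hi, if_false]; exact ⟨isOpen_univ, trivial⟩
  · have h2 : (y, a) ∈ A ×ˢ B := by
      refine ⟨hIu fun i hi => ?_, hεB ?_⟩
      · have := hy i
        simp only [Finset.mem_coe.1 hi, if_true] at this
        exact this
      · rw [Metric.mem_ball, dist_pi_lt_iff hε]
        intro i; rw [Real.dist_eq]; exact ha i
    exact hAB h2

theorem exists_idx {D₀ : Set (Cp X)} (hD₀ : Dense D₀) {F : Set (LpS X)} (hF : IsClosed F)
    {φ : LpS X} (hφ : φ ∉ F) :
    ∃ t : Idx X, t.f ∈ D₀ ∧ ∃ g ∈ PhiF F t, ∃ W : Set (Cp X), IsOpen W ∧ g ∈ W ∧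
      ∀ d ∈ W, φ ∈ KF t d := by
  classical
  obtain ⟨n, x, c, hx, hc, hev⟩ := rep φ
  have hφmk : φ = mk x c := ext_ev fun f => by rw [ev_mk]; exact hev f
  obtain ⟨V, ε, hε, hV, hbox⟩ := box_nhds hF.isOpen_compl x c (by rw [← hφmk]; exact hφ)
  -- rational intervals
  have hpq : ∀ i, ∃ p q : ℚ, (p : ℝ) < c i ∧ c i < q ∧ c i - ε < p ∧ (q : ℝ) < c i + ε ∧
      0 < p * q := by
    intro i
    rcases lt_or_gt_of_ne (hc i) with h | h
    · obtain ⟨p, hp1, hp2⟩ := exists_rat_btwn (show c i - ε < c i by linarith)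
      obtain ⟨q, hq1, hq2⟩ := exists_rat_btwn (show c i < min 0 (c i + ε) from
        lt_min h (by linarith))
      refine ⟨p, q, hp2, hq1, hp1, lt_of_lt_of_le hq2 (min_le_right _ _), ?_⟩
      have hp0 : (p : ℝ) < 0 := hp2.trans h
      have hq0 : (q : ℝ) < 0 := lt_of_lt_of_le hq2 (min_le_left _ _)
      have : (0 : ℝ) < p * q := mul_pos_of_neg_of_neg hp0 hq0
      exact_mod_cast this
    · obtain ⟨p, hp1, hp2⟩ := exists_rat_btwn (show max 0 (c i - ε) < c i from
        max_lt h (by linarith))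
      obtain ⟨q, hq1, hq2⟩ := exists_rat_btwn (show c i < c i + ε by linarith)
      refine ⟨p, q, hp2, hq1, lt_of_le_of_lt (le_max_right _ _) hp1, hq2, ?_⟩
      have hp0 : (0 : ℝ) < p := lt_of_le_of_lt (le_max_left _ _) hp1
      have hq0 : (0 : ℝ) < q := h.trans hq1
      have : (0 : ℝ) < p * q := mul_pos hp0 hq0
      exact_mod_cast this
  choose p q hp hq hpe hqe hpq0 using hpq
  -- separating function from `D₀`
  obtain ⟨f₁, hf₁⟩ := exists_fun x hx (fun i => ((i : ℕ) : ℝ))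
  have hcev : ∀ y : X, Continuous fun g : Cp X => g.1 y :=
    fun y => (continuous_apply y).comp continuous_subtype_val
  have hop : IsOpen {g : Cp X | ∀ i, |g.1 (x i) - (i : ℕ)| < 1/4} := by
    have : {g : Cp X | ∀ i, |g.1 (x i) - (i : ℕ)| < 1/4}
        = ⋂ i, {g : Cp X | |g.1 (x i) - (i : ℕ)| < 1/4} := by ext g; simp
    rw [this]
    exact isOpen_iInter_of_finite fun i =>
      isOpen_lt ((hcev _).sub continuous_const).abs continuous_const
  obtain ⟨f, hf, hfD⟩ := hD₀.inter_open_nonempty _ hop ⟨f₁, fun i => by simp [hf₁]⟩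
  let t : Idx X := ⟨n, f, p, q⟩
  -- the bump
  have hb : ∀ i, ∃ g : X → ℝ, Continuous g ∧ (∀ y, 0 ≤ g y) ∧ g (x i) = 1 ∧
      ∀ y, g y ≠ 0 → y ∈ V i ∩ {y | |f.1 y - (i : ℕ)| < 1/2} := by
    intro i
    refine bump ((hV i).1.inter (isOpen_lt (f.2.sub continuous_const).abs continuous_const))
      ⟨(hV i).2, ?_⟩
    have := hf i
    show |f.1 (x i) - (i : ℕ)| < 1/2
    linarith
  choose g hg hg0 hg1 hg2 using hb
  refine ⟨t, hfD, ⟨fun y => ∑ i, g i y, continuous_finsetSum _ fun i _ => hg i⟩, ?_,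
    {d : Cp X | ∀ i, 1/2 < |d.1 (x i)|}, ?_, ?_, ?_⟩
  · intro y a hy ha hmem
    by_contra hne
    replace hne := Finset.prod_ne_zero_iff.1 hne
    have hyV : ∀ i, y i ∈ V i := by
      intro i
      have h1 : ∑ j, g j (y i) ≠ 0 := hne i (Finset.mem_univ i)
      obtain ⟨j, -, hj⟩ := Finset.exists_ne_zero_of_sum_ne_zero h1
      have h2 := hg2 j _ hj
      have h3 : |f.1 (y i) - (j : ℕ)| < 1/2 := h2.2
      have h4 : |f.1 (y i) - (i : ℕ)| ≤ 1/4 := hy i
      have h5 : i = j := by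
        rw [abs_lt] at h3
        rw [abs_le] at h4
        by_contra hij
        rcases lt_or_gt_of_ne (fun h : (i : ℕ) = (j : ℕ) => hij (Fin.ext h)) with h6 | h6
        · have : ((i : ℕ) : ℝ) + 1 ≤ (j : ℕ) := by exact_mod_cast h6
          linarith
        · have : ((j : ℕ) : ℝ) + 1 ≤ (i : ℕ) := by exact_mod_cast h6
          linarith
      rw [h5] at h2 ⊢
      exact h2.1
    have hay : ∀ i, |a i - c i| < ε := by
      intro i
      have h1 : (p i : ℝ) ≤ a i ∧ a i ≤ q i := ha i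
      rw [abs_lt]
      constructor <;> linarith [hpe i, hqe i, h1.1, h1.2]
    exact hbox y a hyV hay hmem
  · have : {d : Cp X | ∀ i, 1/2 < |d.1 (x i)|} = ⋂ i, {d : Cp X | 1/2 < |d.1 (x i)|} := by
      ext d; simp
    rw [this]
    exact isOpen_iInter_of_finite fun i => isOpen_lt continuous_const (hcev _).abs
  · intro i
    show 1/2 < |∑ j, g j (x i)|
    have h1 : g i (x i) ≤ ∑ j, g j (x i) :=
      Finset.single_le_sum (f := fun j => g j (x i)) (fun j _ => hg0 j _) (Finset.mem_univ i)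
    rw [hg1] at h1
    rw [abs_of_nonneg (by linarith)]
    linarith
  · intro d hd
    have hht : ∀ i j : Fin n, (ht f (i : ℕ)).1 (x j) = if j = i then 1 else 0 := by
      intro i j
      have h1 : (ht f (j : ℕ)).1 (x j) = 1 := pl_eq_one.2 (hf j).le
      by_cases hij : j = i
      · subst hij; simp [h1]
      · have h2 := ht_mul f (fun h : (i : ℕ) = (j : ℕ) => hij (Fin.ext h.symm)) (x j)
        rw [h1, mul_one] at h2
        simp [hij, h2]
    have hev2 : ∀ (i : Fin n) (g' : Cp X), ev φ (mc (ht f (i : ℕ)) g') = c i * g'.1 (x i) := by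
      intro i g'
      rw [hev, Finset.sum_eq_single i]
      · show c i * ((ht f (i : ℕ)).1 (x i) * g'.1 (x i)) = _
        rw [hht]; simp
      · intro j _ hji
        show c j * ((ht f (i : ℕ)).1 (x j) * g'.1 (x j)) = _
        rw [hht]; simp [hji]
      · intro h; exact absurd (Finset.mem_univ i) h
    have hev1 : ∀ i : Fin n, ev φ (ht f (i : ℕ)) = c i := by
      intro i
      rw [hev, Finset.sum_eq_single i]
      · rw [hht]; simp
      · intro j _ hji
        rw [hht]; simp [hji]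
      · intro h; exact absurd (Finset.mem_univ i) h
    refine ⟨hpq0, fun g' => ?_, fun i => ?_, fun i g₁ g₂ => ?_, fun i => ?_⟩
    · rw [hev]
      exact Finset.sum_congr rfl fun i _ => (hev2 i g').symm
    · rw [show ev φ (ht t.f i) = c i from hev1 i]
      exact ⟨(hp i).le, (hq i).le⟩
    · rw [show ev φ (ht t.f i) = c i from hev1 i, hev2 i, hev2 i, hev2 i]
      show c i * (g₁.1 (x i) * g₂.1 (x i)) * c i = _
      ring
    · rw [show ev φ (ht t.f i) = c i from hev1 i, hev2 i]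
      show |c i| ≤ 2 * |c i * (|d.1 (x i)|)|
      rw [abs_mul, abs_abs]
      have h1 : 1/2 < |d.1 (x i)| := hd i
      nlinarith [abs_nonneg (c i)]

/-- Closed subsets of `L_p(X)` are `G_δ` when `C_p(X)` is closed-separable. -/
theorem gdelta_general (h : ClSep (Cp X)) {F : Set (LpS X)} (hF : IsClosed F) : IsGδ F := by
  obtain ⟨D₀, hD₀, -, hD₀d⟩ := h.exists isClosed_univ
  have hdense : Dense D₀ := fun x => hD₀d trivial
  choose D hD hDΦ hDd using fun t : Idx X => h.exists (PhiF_closed F t)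
  let 𝒦 : Set (Set (LpS X)) :=
    ⋃ (n : ℕ) (f ∈ D₀) (p : Fin n → ℚ) (q : Fin n → ℚ), (KF ⟨n, f, p, q⟩) '' D ⟨n, f, p, q⟩
  have hc : 𝒦.Countable := countable_iUnion fun n => hD₀.biUnion fun f _ =>
    countable_iUnion fun p => countable_iUnion fun q => (hD _).image _
  have hFe : F = ⋂ K ∈ 𝒦, Kᶜ := by
    ext φ
    simp only [mem_iInter, mem_compl_iff]
    constructor
    · intro hφ K hK hφK
      simp only [𝒦, mem_iUnion] at hK
      obtain ⟨n, f, hf, p, q, d, hd, rfl⟩ := hK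
      exact (KF_disj (hDΦ _ hd)).le_bot ⟨hφK, hφ⟩
    · intro hφ
      by_contra hcon
      obtain ⟨t, htD, g, hg, W, hW, hgW, hWd⟩ := exists_idx hdense hF hcon
      obtain ⟨d, hd1, hd2⟩ := mem_closure_iff.1 (hDd t hg) W hW hgW
      refine hφ (KF t d) ?_ (hWd d hd1)
      simp only [𝒦, mem_iUnion]
      exact ⟨t.n, t.f, htD, t.p, t.q, d, hd2, rfl⟩
  rw [hFe]
  refine IsGδ.biInter hc fun K hK => ?_
  simp only [𝒦, mem_iUnion] at hK
  obtain ⟨n, f, hf, p, q, d, hd, rfl⟩ := hK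
  exact (KF_closed _ _).isOpen_compl.isGδ

end tych

end Pool.Agent.R594.Lp
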