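import Mathlib
import Pool.Agent.R594.Lp.Perfect

/-!
# Closed separability of `C_p(X)` implies that all finite powers of `X` are perfectly normal
and have countable spread
-/

set_option autoImplicit false

open Topology Set Filter TopologicalSpace

namespace Pool.Agent.R594.Lp

section tych
variable {X : Type*} [TopologicalSpace X] [T35Space X]

/-- localization data at a point of `X^n` -/
theorem exists_loc {D₀ : Set (Cp X)} (hD₀ : Dense D₀) {n : ℕ} (y : Fin n → X)
    {O : Set (Fin n → X)} (hO : IsOpen O) (hy : y ∈ O) :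
    ∃ f ∈ D₀, ∃ π : Fin n → ℕ, (∀ i, |f.1 (y i) - π i| < 1/4) ∧
      ∃ g : Cp X, (∀ i, 1 ≤ g.1 (y i)) ∧
        ∀ x : Fin n → X, (∀ i, |f.1 (x i) - π i| ≤ 1/4) → x ∉ O → ∏ i, g.1 (x i) = 0 := by
  classical
  let S : Finset X := Finset.univ.image y
  let e := S.equivFin
  have hyS : ∀ i, y i ∈ S := fun i => Finset.mem_image_of_mem _ (Finset.mem_univ i)
  obtain ⟨f₁, hf₁⟩ := exists_fun (fun i => (e.symm i).1)
    (fun i j h => e.symm.injective (Subtype.ext h)) (fun i => ((i : ℕ) : ℝ))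
  let π : Fin n → ℕ := fun i => (e ⟨y i, hyS i⟩ : ℕ)
  have hπ : ∀ i j, π i = π j → y i = y j := by
    intro i j h
    have h1 : e ⟨y i, hyS i⟩ = e ⟨y j, hyS j⟩ := Fin.ext h
    exact congrArg Subtype.val (e.injective h1)
  have hf₁' : ∀ i, f₁.1 (y i) = π i := by
    intro i
    have := hf₁ (e ⟨y i, hyS i⟩)
    simpa using this
  have hcev : ∀ y : X, Continuous fun g : Cp X => g.1 y :=
    fun y => (continuous_apply y).comp continuous_subtype_val
  have hop : IsOpen {g : Cp X | ∀ i, |g.1 (y i) - π i| < 1/4} := by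
    have : {g : Cp X | ∀ i, |g.1 (y i) - π i| < 1/4}
        = ⋂ i, {g : Cp X | |g.1 (y i) - π i| < 1/4} := by ext g; simp
    rw [this]
    exact isOpen_iInter_of_finite fun i =>
      isOpen_lt ((hcev _).sub continuous_const).abs continuous_const
  obtain ⟨f, hf, hfD⟩ := hD₀.inter_open_nonempty _ hop ⟨f₁, fun i => by simp [hf₁']⟩
  obtain ⟨I, u, hu, hIu⟩ := isOpen_pi_iff.1 hO y hy
  let V : Fin n → Set X := fun i => if i ∈ I then u i else univ
  have hV : ∀ i, IsOpen (V i) ∧ y i ∈ V i := by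
    intro i
    by_cases hi : i ∈ I
    · simp only [V, hi, if_true]; exact hu i hi
    · simp only [V, hi, if_false]; exact ⟨isOpen_univ, trivial⟩
  have hVO : ∀ x : Fin n → X, (∀ i, x i ∈ V i) → x ∈ O := by
    intro x hx
    refine hIu fun i hi => ?_
    have := hx i
    simp only [V, Finset.mem_coe.1 hi, if_true] at this
    exact this
  let V' : Fin n → Set X := fun i => ⋂ k ∈ (Finset.univ.filter fun k => y k = y i), V k
  have hV' : ∀ i, IsOpen (V' i) ∧ y i ∈ V' i := by
    intro i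
    refine ⟨isOpen_biInter_finset fun k _ => (hV k).1, ?_⟩
    simp only [V', mem_iInter, Finset.mem_filter, Finset.mem_univ, true_and]
    intro k hk
    rw [← hk]; exact (hV k).2
  have hb : ∀ i, ∃ g : X → ℝ, Continuous g ∧ (∀ y, 0 ≤ g y) ∧ g (y i) = 1 ∧
      ∀ z, g z ≠ 0 → z ∈ V' i ∩ {z | |f.1 z - π i| < 1/2} := by
    intro i
    refine bump ((hV' i).1.inter (isOpen_lt (f.2.sub continuous_const).abs continuous_const))
      ⟨(hV' i).2, ?_⟩
    have := hf i
    show |f.1 (y i) - π i| < 1/2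
    linarith
  choose g hg hg0 hg1 hg2 using hb
  refine ⟨f, hfD, π, hf, ⟨fun z => ∑ i, g i z, continuous_finsetSum _ fun i _ => hg i⟩, ?_, ?_⟩
  · intro i
    show 1 ≤ ∑ j, g j (y i)
    have h1 : g i (y i) ≤ ∑ j, g j (y i) :=
      Finset.single_le_sum (f := fun j => g j (y i)) (fun j _ => hg0 j _) (Finset.mem_univ i)
    rw [hg1] at h1
    exact h1
  · intro x hx hxO
    by_contra hne
    replace hne := Finset.prod_ne_zero_iff.1 hne
    apply hxO
    apply hVO
    intro i
    have h1 : ∑ j, g j (x i) ≠ 0 := hne i (Finset.mem_univ i)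
    obtain ⟨j, -, hj⟩ := Finset.exists_ne_zero_of_sum_ne_zero h1
    have h2 := hg2 j _ hj
    have h3 : |f.1 (x i) - π j| < 1/2 := h2.2
    have h4 := hx i
    have h5 : π i = π j := by
      rw [abs_lt] at h3
      rw [abs_le] at h4
      by_contra hij
      rcases lt_or_gt_of_ne hij with h6 | h6
      · have : ((π i : ℕ) : ℝ) + 1 ≤ (π j : ℕ) := by exact_mod_cast h6
        linarith
      · have : ((π j : ℕ) : ℝ) + 1 ≤ (π i : ℕ) := by exact_mod_cast h6
        linarith
    have h6 := h2.1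
    simp only [V', mem_iInter, Finset.mem_filter, Finset.mem_univ, true_and] at h6
    exact h6 i (hπ i j h5)

/-- every finite power is perfectly normal -/
theorem powers_perfNormal (h : ClSep (Cp X)) (n : ℕ) :
    NormalSpace (Fin n → X) ∧ ∀ s : Set (Fin n → X), IsClosed s → IsGδ s := by
  classical
  obtain ⟨D₀, hD₀, -, hD₀d⟩ := h.exists isClosed_univ
  have hdense : Dense D₀ := fun x => hD₀d trivial
  have hcev : ∀ y : X, Continuous fun g : Cp X => g.1 y :=
    fun y => (continuous_apply y).comp continuous_subtype_val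
  refine perfect_of_covers fun F hF => ?_
  let Φ : (Fin n → ℕ) → Cp X → Set (Cp X) := fun π f =>
    {g | ∀ x ∈ F, (∀ i, |f.1 (x i) - π i| ≤ 1/4) → ∏ i, g.1 (x i) = 0}
  have hΦ : ∀ π f, IsClosed (Φ π f) := by
    intro π f
    have : Φ π f = ⋂ x ∈ F, ⋂ (_ : ∀ i, |f.1 (x i) - π i| ≤ 1/4),
        {g : Cp X | ∏ i, g.1 (x i) = 0} := by ext g; simp [Φ]
    rw [this]
    exact isClosed_biInter fun x _ => isClosed_iInter fun _ =>
      isClosed_eq (continuous_finsetProd _ fun i _ => hcev _) continuous_const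
  choose D hD hDΦ hDd using fun (π : Fin n → ℕ) (f : Cp X) => h.exists (hΦ π f)
  let U : (Fin n → ℕ) → Cp X → Cp X → Set (Fin n → X) := fun π f d =>
    {y | ∀ i, |f.1 (y i) - π i| < 1/4 ∧ 1/2 < |d.1 (y i)|}
  refine sepCover_of_countable (⋃ (π : Fin n → ℕ) (f ∈ D₀), (U π f) '' D π f) ?_ ?_ ?_
  · exact countable_iUnion fun π => hD₀.biUnion fun f _ => (hD π f).image _
  · intro W hW
    simp only [mem_iUnion] at hW
    obtain ⟨π, f, hf, d, hd, rfl⟩ := hW
    constructor
    · have : U π f d = ⋂ i, ({y : Fin n → X | |f.1 (y i) - π i| < 1/4} ∩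
          {y : Fin n → X | 1/2 < |d.1 (y i)|}) := by
        ext y; simp [U]
      rw [this]
      exact isOpen_iInter_of_finite fun i =>
        (isOpen_lt ((f.2.comp (continuous_apply i)).sub continuous_const).abs
          continuous_const).inter (isOpen_lt continuous_const (d.2.comp (continuous_apply i)).abs)
    · have hcl : IsClosed {y : Fin n → X | ∀ i, |f.1 (y i) - π i| ≤ 1/4 ∧ 1/2 ≤ |d.1 (y i)|} := by
        have : {y : Fin n → X | ∀ i, |f.1 (y i) - π i| ≤ 1/4 ∧ 1/2 ≤ |d.1 (y i)|}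
            = ⋂ i, ({y : Fin n → X | |f.1 (y i) - π i| ≤ 1/4} ∩
              {y : Fin n → X | 1/2 ≤ |d.1 (y i)|}) := by
          ext y; simp
        rw [this]
        exact isClosed_iInter fun i =>
          (isClosed_le ((f.2.comp (continuous_apply i)).sub continuous_const).abs
            continuous_const).inter
            (isClosed_le continuous_const (d.2.comp (continuous_apply i)).abs)
      have hsub : closure (U π f d) ⊆
          {y : Fin n → X | ∀ i, |f.1 (y i) - π i| ≤ 1/4 ∧ 1/2 ≤ |d.1 (y i)|} :=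
        closure_minimal (fun y hy i => ⟨(hy i).1.le, (hy i).2.le⟩) hcl
      rw [Set.disjoint_left]
      intro y hy hyF
      have h1 := hsub hy
      have h2 := hDΦ π f hd y hyF fun i => (h1 i).1
      refine Finset.prod_ne_zero_iff.2 (fun i _ => ?_) h2
      intro h3
      have := (h1 i).2
      rw [h3, abs_zero] at this
      norm_num at this
  · intro y hy
    obtain ⟨f, hfD, π, hfπ, g, hg1, hg2⟩ := exists_loc hdense y hF.isOpen_compl hy
    have hgΦ : g ∈ Φ π f := fun x hx hxi => hg2 x hxi (fun h => h hx)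
    have hop : IsOpen {d : Cp X | ∀ i, 1/2 < |d.1 (y i)|} := by
      have : {d : Cp X | ∀ i, 1/2 < |d.1 (y i)|} = ⋂ i, {d : Cp X | 1/2 < |d.1 (y i)|} := by
        ext d; simp
      rw [this]
      exact isOpen_iInter_of_finite fun i => isOpen_lt continuous_const (hcev _).abs
    obtain ⟨d, hd1, hd2⟩ := mem_closure_iff.1 (hDd π f hgΦ) _ hop (fun i => by
      rw [abs_of_nonneg (by linarith [hg1 i])]; linarith [hg1 i])
    refine ⟨U π f d, ?_, fun i => ⟨hfπ i, hd1 i⟩⟩
    simp only [mem_iUnion]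
    exact ⟨π, f, hfD, d, hd2, rfl⟩

/-- every discrete family in a finite power is countable -/
theorem powers_spread (h : ClSep (Cp X)) (n : ℕ) {A : Type*} (y : A → Fin n → X)
    (O : A → Set (Fin n → X)) (hO : ∀ a, IsOpen (O a)) (hy : ∀ a, y a ∈ O a)
    (hd : ∀ a b, a ≠ b → y b ∉ O a) : Countable A := by
  classical
  obtain ⟨D₀, hD₀, -, hD₀d⟩ := h.exists isClosed_univ
  have hdense : Dense D₀ := fun x => hD₀d trivial
  have hcev : ∀ y : X, Continuous fun g : Cp X => g.1 y :=
    fun y => (continuous_apply y).comp continuous_subtype_val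
  choose f hf π hfπ g hg1 hg2 using fun a => exists_loc hdense (y a) (hO a) (hy a)
  by_contra hcon
  have hD₀c : Countable ↥D₀ := hD₀.to_subtype
  -- pigeonhole
  let key : A → (Fin n → ℕ) × ↥D₀ := fun a => (π a, ⟨f a, hf a⟩)
  have hex : ∃ k, ¬ (key ⁻¹' {k}).Countable := by
    by_contra hall
    push Not at hall
    apply hcon
    rw [← countable_univ_iff]
    have : (univ : Set A) = ⋃ k, key ⁻¹' {k} := by ext a; simp
    rw [this]
    exact countable_iUnion hall
  obtain ⟨⟨π₀, ⟨f₀, hf₀⟩⟩, hk⟩ := hex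
  let B : Set A := key ⁻¹' {(π₀, ⟨f₀, hf₀⟩)}
  have hB : ∀ a ∈ B, π a = π₀ ∧ f a = f₀ := by
    intro a ha
    have h1 : key a = (π₀, ⟨f₀, hf₀⟩) := ha
    exact ⟨congrArg Prod.fst h1, congrArg (fun p => (p.2 : Cp X)) h1⟩
  have hcross : ∀ a ∈ B, ∀ b ∈ B, a ≠ b → ∏ i, (g a).1 (y b i) = 0 := by
    intro a ha b hb hab
    refine hg2 a (y b) (fun i => ?_) (hd a b hab)
    rw [(hB a ha).1, (hB a ha).2, ← (hB b hb).1, ← (hB b hb).2]
    exact (hfπ b i).le
  let Ψ : Set (Cp X) := {u | ∀ a ∈ B, ∀ b ∈ B, a ≠ b →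
    (∏ i, u.1 (y a i)) * (∏ i, u.1 (y b i)) = 0}
  have hΨ : IsClosed Ψ := by
    have : Ψ = ⋂ a ∈ B, ⋂ b ∈ B, ⋂ (_ : a ≠ b),
        {u : Cp X | (∏ i, u.1 (y a i)) * (∏ i, u.1 (y b i)) = 0} := by
      ext u; simp [Ψ]
    rw [this]
    exact isClosed_biInter fun a _ => isClosed_biInter fun b _ => isClosed_iInter fun _ =>
      isClosed_eq ((continuous_finsetProd _ fun i _ => hcev _).mul
        (continuous_finsetProd _ fun i _ => hcev _)) continuous_const
  have hgΨ : ∀ a ∈ B, g a ∈ Ψ := by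
    intro a ha b hb c hc hbc
    by_cases hab : a = b
    · subst hab
      rw [hcross a ha c hc hbc, mul_zero]
    · rw [hcross a ha b hb hab, zero_mul]
  obtain ⟨D, hD, hDΨ, hDd⟩ := h.exists hΨ
  have hpick : ∀ a : B, ∃ d : D, ∏ i, d.1.1 (y a i) ≠ 0 := by
    intro a
    have hop : IsOpen {u : Cp X | ∏ i, u.1 (y a i) ≠ 0} :=
      isOpen_ne_fun (continuous_finsetProd _ fun i _ => hcev _) continuous_const
    obtain ⟨d, hd1, hd2⟩ := mem_closure_iff.1 (hDd (hgΨ a a.2)) _ hop
      (Finset.prod_ne_zero_iff.2 fun i _ => by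
        have := hg1 a i
        intro h0
        rw [h0] at this
        norm_num at this)
    exact ⟨⟨d, hd2⟩, hd1⟩
  choose d hd' using hpick
  have hinj : Function.Injective d := by
    intro a b hab
    by_contra hne
    have h1 := hDΨ (d a).2 a a.2 b b.2 (fun h => hne (Subtype.ext h))
    rcases mul_eq_zero.1 h1 with h2 | h2
    · exact hd' a h2
    · rw [hab] at h2; exact hd' b h2
  apply hk
  have : Countable ↥D := hD.to_subtype
  exact (hinj.countable : Countable ↥B)

end tych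

end Pool.Agent.R594.Lp
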