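import Mathlib
import Pool.Agent.R594.Lp.Kunen
import Pool.Agent.R594.Lp.Powers

/-!
# `MA(ℵ₁)` gives a positive answer
-/

set_option autoImplicit false

open Topology Set Cardinal TopologicalSpace

namespace Pool.Agent.R594.Lp

section tych
variable {X : Type*} [TopologicalSpace X] [T35Space X]

theorem spread_pow (h : ClSep (Cp X)) (n k : ℕ) : CtbSpread (Fin k → Fin n → X) := by
  intro A y O hO hy hd
  let e : (Fin (k * n) → X) → (Fin k → Fin n → X) := fun z i j => z (finProdFinEquiv (i, j))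
  have he : Continuous e := continuous_pi fun i => continuous_pi fun j => continuous_apply _
  let e' : (Fin k → Fin n → X) → (Fin (k * n) → X) := fun w m =>
    w (finProdFinEquiv.symm m).1 (finProdFinEquiv.symm m).2
  have hee : ∀ w, e (e' w) = w := by
    intro w
    funext i j
    show w (finProdFinEquiv.symm (finProdFinEquiv (i, j))).1
      (finProdFinEquiv.symm (finProdFinEquiv (i, j))).2 = w i j
    rw [Equiv.symm_apply_apply]
  refine powers_spread h (k * n) (fun a => e' (y a)) (fun a => e ⁻¹' (O a))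
    (fun a => (hO a).preimage he) (fun a => ?_) (fun a b hab hcon => ?_)
  · show e (e' (y a)) ∈ O a
    rw [hee]; exact hy a
  · have h1 : e (e' (y b)) ∈ O a := hcon
    rw [hee] at h1
    exact hd a b hab h1

theorem hlin_pow (hMA : MartinAxiomAleph1) (h : ClSep (Cp X)) (n : ℕ) : HLin (Fin n → X) :=
  kunen hMA fun k => spread_pow h n k

/-- hereditarily Lindelöf finite powers give separating covers in `L_p(X)` -/
theorem covers_of_HL (hHL : ∀ n, HLin (Fin n → X)) {F : Set (LpS X)} (hF : IsClosed F) :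
    HasSeparatingCover Fᶜ F := by
  classical
  have hU : ∀ φ : LpS X, ∃ U : Set (LpS X), φ ∉ F → IsOpen U ∧ φ ∈ U ∧ Disjoint (closure U) F := by
    intro φ
    by_cases hφ : φ ∈ F
    · exact ⟨∅, fun h => absurd hφ h⟩
    · have hn : Fᶜ ∈ 𝓝 φ := hF.isOpen_compl.mem_nhds hφ
      obtain ⟨t, ht, htc, hts⟩ := exists_mem_nhds_isClosed_subset hn
      refine ⟨interior t, fun _ => ⟨isOpen_interior, mem_interior_iff_mem_nhds.2 ht, ?_⟩⟩
      rw [Set.disjoint_left]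
      intro ψ hψ hψF
      exact hts (closure_minimal interior_subset htc hψ) hψF
  choose U hU using hU
  let T : (n : ℕ) → (Fin n → ℚ) → (Fin n → ℚ) → Set (Fin n → X) := fun n p q =>
    {x | ∃ φ : LpS X, φ ∉ F ∧ ∃ V : Set (Fin n → X), IsOpen V ∧ x ∈ V ∧
      ∀ x' ∈ V, ∀ c' : Fin n → ℝ, (∀ i, (p i : ℝ) < c' i ∧ c' i < q i) → mk x' c' ∈ U φ}
  have hT : ∀ n p q, ∃ 𝒰 : Set (Set (LpS X)), 𝒰.Countable ∧
      (∀ O ∈ 𝒰, IsOpen O ∧ Disjoint (closure O) F) ∧
      ∀ x ∈ T n p q, ∀ c : Fin n → ℝ, (∀ i, (p i : ℝ) < c i ∧ c i < q i) → mk x c ∈ ⋃₀ 𝒰 := by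
    intro n p q
    have hsel : ∀ x : Fin n → X, ∃ (φ : LpS X) (V : Set (Fin n → X)), x ∈ T n p q →
        (φ ∉ F ∧ IsOpen V ∧ x ∈ V ∧
        ∀ x' ∈ V, ∀ c' : Fin n → ℝ, (∀ i, (p i : ℝ) < c' i ∧ c' i < q i) → mk x' c' ∈ U φ) := by
      intro x
      by_cases hx : x ∈ T n p q
      · obtain ⟨φ, hφ, V, h1, h2, h3⟩ := hx
        exact ⟨φ, V, fun _ => ⟨hφ, h1, h2, h3⟩⟩
      · exact ⟨mk (n := 0) (fun i => i.elim0) (fun i => i.elim0), ∅, fun h => absurd h hx⟩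
    choose φ V hφV using hsel
    obtain ⟨T', hT'T, hT'c, hT'⟩ := hHL n (T n p q) V
      (fun x hx => ⟨(hφV x hx).2.1, (hφV x hx).2.2.1⟩)
    refine ⟨(fun x => U (φ x)) '' T', hT'c.image _, ?_, ?_⟩
    · rintro _ ⟨x, hx, rfl⟩
      have h1 := hφV x (hT'T hx)
      exact ⟨(hU _ h1.1).1, (hU _ h1.1).2.2⟩
    · intro x hx c hc
      obtain ⟨x', hx', hxx'⟩ := mem_iUnion₂.1 (hT' hx)
      exact ⟨U (φ x'), ⟨x', hx', rfl⟩, (hφV x' (hT'T hx')).2.2.2 x hxx' c hc⟩
  choose 𝒰 h𝒰c h𝒰o h𝒰 using hT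
  refine sepCover_of_countable (⋃ (n : ℕ) (p : Fin n → ℚ) (q : Fin n → ℚ), 𝒰 n p q) ?_ ?_ ?_
  · exact countable_iUnion fun n => countable_iUnion fun p => countable_iUnion fun q => h𝒰c n p q
  · intro O hO
    simp only [mem_iUnion] at hO
    obtain ⟨n, p, q, hO⟩ := hO
    exact h𝒰o n p q O hO
  · intro φ hφ
    obtain ⟨n, x, c, -, -, hev⟩ := rep φ
    have hφmk : φ = mk x c := ext_ev fun f => by rw [ev_mk]; exact hev f
    obtain ⟨V, ε, hε, hV, hbox⟩ := box_nhds (hU φ hφ).1 x c (by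
      rw [← hφmk]; exact (hU φ hφ).2.1)
    have hpq : ∀ i, ∃ p q : ℚ, (p : ℝ) < c i ∧ c i < q ∧ c i - ε < p ∧ (q : ℝ) < c i + ε := by
      intro i
      obtain ⟨p, hp1, hp2⟩ := exists_rat_btwn (show c i - ε < c i by linarith)
      obtain ⟨q, hq1, hq2⟩ := exists_rat_btwn (show c i < c i + ε by linarith)
      exact ⟨p, q, hp2, hq1, hp1, hq2⟩
    choose p q hp hq hpe hqe using hpq
    have hx : x ∈ T n p q := by
      refine ⟨φ, hφ, {z | ∀ i, z i ∈ V i}, ?_, fun i => (hV i).2, ?_⟩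
      · have : {z : Fin n → X | ∀ i, z i ∈ V i} = ⋂ i, (fun z : Fin n → X => z i) ⁻¹' (V i) := by
          ext z; simp
        rw [this]
        exact isOpen_iInter_of_finite fun i => (hV i).1.preimage (continuous_apply i)
      · intro x' hx' c' hc'
        refine hbox x' c' hx' fun i => ?_
        rw [abs_lt]
        constructor <;> linarith [hpe i, hqe i, (hc' i).1, (hc' i).2]
    have h1 := h𝒰 n p q x hx c (fun i => ⟨hp i, hq i⟩)
    rw [← hφmk] at h1
    obtain ⟨O, hO, hφO⟩ := h1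
    exact ⟨O, by simp only [mem_iUnion]; exact ⟨n, p, q, hO⟩, hφO⟩

theorem ma_main (hMA : MartinAxiomAleph1) (h : ClSep (Cp X)) :
    NormalSpace (LpS X) ∧ ∀ s : Set (LpS X), IsClosed s → IsGδ s :=
  perfect_of_covers fun _ hF => covers_of_HL (hlin_pow hMA h) hF

/-- from `HLin` to Lindelöf subspaces -/
theorem HLin.lindelof {Y : Type*} [TopologicalSpace Y] (hY : HLin Y) (S : Set Y) :
    IsLindelof S := by
  rw [isLindelof_iff_countable_subcover]
  intro ι V hV hS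
  classical
  have hsel : ∀ x : Y, ∃ i : Set Y, x ∈ S → ∃ j, i = V j ∧ x ∈ V j := by
    intro x
    by_cases hx : x ∈ S
    · obtain ⟨j, hj⟩ := mem_iUnion.1 (hS hx)
      exact ⟨V j, fun _ => ⟨j, rfl, hj⟩⟩
    · exact ⟨∅, fun h => absurd h hx⟩
  choose G hG using hsel
  obtain ⟨T', hT'S, hT'c, hT'⟩ := hY S G (fun x hx => by
    obtain ⟨j, hj, hxj⟩ := hG x hx
    rw [hj]; exact ⟨hV j, hxj⟩)
  have : ∀ x : T', ∃ j, G x.1 = V j := fun x => by
    obtain ⟨j, hj, -⟩ := hG x.1 (hT'S x.2)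
    exact ⟨j, hj⟩
  choose j hj using this
  have hc : Countable ↥T' := hT'c.to_subtype
  refine ⟨range j, countable_range _, fun x hx => ?_⟩
  obtain ⟨x', hx', hxx'⟩ := mem_iUnion₂.1 (hT' hx)
  exact mem_iUnion₂.2 ⟨j ⟨x', hx'⟩, ⟨⟨x', hx'⟩, rfl⟩, by rw [← hj]; exact hxx'⟩

end tych

end Pool.Agent.R594.Lp
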