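import Mathlib
import Pool.Agent.Helper47.LP.Dep
import Pool.Agent.Helper937.Szd2
import Pool.Agent.R594.Lp.MA

/-!
# Perfect normality of `L_p(X)` and countable spread of the finite powers of `X`
-/

set_option autoImplicit false

open Topology Set Cardinal TopologicalSpace

namespace Pool.Agent.R594.Lp

theorem digit : ∀ (n : ℕ) (d : Fin n → ℤ), (∀ i, |d i| ≤ 2) →
    (∑ i, d i * 4 ^ (i : ℕ) = 0) → ∀ i, d i = 0 := by
  intro n
  induction n with
  | zero => intro d _ _ i; exact i.elim0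
  | succ n ih =>
    intro d hd h
    rw [Fin.sum_univ_succ] at h
    have h1 : ∑ i : Fin n, d i.succ * 4 ^ ((i.succ : Fin (n+1)) : ℕ)
        = 4 * ∑ i : Fin n, d i.succ * 4 ^ (i : ℕ) := by
      rw [Finset.mul_sum]
      refine Finset.sum_congr rfl fun i _ => ?_
      rw [Fin.val_succ, pow_succ]; ring
    rw [h1] at h
    simp only [Fin.val_zero, pow_zero, mul_one] at h
    have h0 := abs_le.1 (hd 0)
    have hd0 : d 0 = 0 := by omega
    have hrest : ∑ i : Fin n, d i.succ * 4 ^ (i : ℕ) = 0 := by omega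
    intro i
    refine Fin.cases hd0 (fun j => ?_) i
    exact ih (fun i => d i.succ) (fun i => hd _) hrest j

section
variable {X : Type} [TopologicalSpace X]

/-- `L_p(X)` as a span -/
abbrev LS (X : Type) [TopologicalSpace X] : Type :=
  ↥(Submodule.span ℝ (Set.range (fun (x : X) (f : {f : X → ℝ // Continuous f}) => f.1 x)))

/-- point evaluation -/
def pe (x : X) : LS X := ⟨fun f => f.1 x, Submodule.subset_span ⟨x, rfl⟩⟩

/-- `∑ 4^i δ_{y_i}` -/
noncomputable def S4 {n : ℕ} (y : Fin n → X) : LS X := ∑ i : Fin n, (4 : ℝ) ^ (i : ℕ) • pe (y i)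

theorem S4_apply {n : ℕ} (y : Fin n → X) (f : {f : X → ℝ // Continuous f}) :
    (S4 y).1 f = ∑ i : Fin n, (4 : ℝ) ^ (i : ℕ) * f.1 (y i) := by
  unfold S4
  rw [Submodule.coe_sum, Finset.sum_apply]
  rfl

/-- midpoint -/
noncomputable def mid {n : ℕ} (y z : Fin n → X) : LS X := (1/2 : ℝ) • (S4 y + S4 z)

theorem mid_apply {n : ℕ} (y z : Fin n → X) (f : {f : X → ℝ // Continuous f}) :
    (mid y z).1 f = (1/2) * ((S4 y).1 f + (S4 z).1 f) := rfl

theorem not_mem_closure [T35Space X] {n : ℕ} {A : Type} (y : A → Fin n → X)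
    (O : A → Set (Fin n → X)) (hO : ∀ a, IsOpen (O a)) (hy : ∀ a, y a ∈ O a)
    (hd : ∀ a b, a ≠ b → y b ∉ O a) (a : A) :
    S4 (y a) ∉ closure {ψ : LS X | ∃ b c, b ≠ c ∧ ψ = mid (y b) (y c)} := by
  classical
  -- product box
  obtain ⟨I, u, hu, hIu⟩ := isOpen_pi_iff.1 (hO a) (y a) (hy a)
  let V : Fin n → Set X := fun i => if i ∈ I then u i else univ
  have hV : ∀ i, IsOpen (V i) ∧ y a i ∈ V i := by
    intro i
    by_cases hi : i ∈ I
    · simp only [V, hi, if_true]; exact hu i hi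
    · simp only [V, hi, if_false]; exact ⟨isOpen_univ, trivial⟩
  have hVO : ∀ x : Fin n → X, (∀ i, x i ∈ V i) → x ∈ O a := by
    intro x hx
    refine hIu fun i hi => ?_
    have := hx i
    simp only [V, Finset.mem_coe.1 hi, if_true] at this
    exact this
  -- bumps
  have hb : ∀ j, ∃ g : X → ℝ, Continuous g ∧ (∀ x, 0 ≤ g x) ∧ g (y a j) = 1 ∧
      ∀ x, g x ≠ 0 → x ∈ V j ∩ (y a '' {k | y a k ≠ y a j})ᶜ := by
    intro j
    refine bump ((hV j).1.inter (toFinite (y a '' {k | y a k ≠ y a j})).isClosed.isOpen_compl)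
      ⟨(hV j).2, ?_⟩
    rintro ⟨k, hk, hkj⟩
    exact hk hkj
  choose g hg hg0 hg1 hg2 using hb
  have hgk : ∀ j k, y a k ≠ y a j → g j (y a k) = 0 := by
    intro j k hk
    by_contra hne
    exact (hg2 j _ hne).2 ⟨k, hk, rfl⟩
  let lo : Fin n → {f : X → ℝ // Continuous f} := fun j =>
    ⟨fun x => max 0 (2 * min 1 (g j x) - 1), by
      exact continuous_const.max ((continuous_const.mul (continuous_const.min (hg j))).sub
        continuous_const)⟩
  let hi : Fin n → {f : X → ℝ // Continuous f} := fun j =>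
    ⟨fun x => min 1 (2 * g j x), continuous_const.min (continuous_const.mul (hg j))⟩
  let γ : Fin n → ℝ := fun j => ∑ i : Fin n, (4:ℝ) ^ (i : ℕ) * (if y a i = y a j then 1 else 0)
  have hlo : ∀ j, (S4 (y a)).1 (lo j) = γ j := by
    intro j
    rw [S4_apply]
    refine Finset.sum_congr rfl fun i _ => ?_
    congr 1
    show max 0 (2 * min 1 (g j (y a i)) - 1) = _
    by_cases h : y a i = y a j
    · rw [if_pos h, h, hg1]; norm_num
    · rw [if_neg h, hgk j i h]; norm_num
  have hhi : ∀ j, (S4 (y a)).1 (hi j) = γ j := by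
    intro j
    rw [S4_apply]
    refine Finset.sum_congr rfl fun i _ => ?_
    congr 1
    show min 1 (2 * g j (y a i)) = _
    by_cases h : y a i = y a j
    · rw [if_pos h, h, hg1]; norm_num
    · rw [if_neg h, hgk j i h]; norm_num
  have hev : ∀ f : {f : X → ℝ // Continuous f}, Continuous fun ψ : LS X => ψ.1 f :=
    fun f => (continuous_apply f).comp continuous_subtype_val
  let N : Set (LS X) := {ψ | ∀ j, γ j - 1/4 < ψ.1 (lo j) ∧ ψ.1 (hi j) < γ j + 1/4}
  have hN : IsOpen N := by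
    have : N = ⋂ j, ({ψ : LS X | γ j - 1/4 < ψ.1 (lo j)} ∩ {ψ : LS X | ψ.1 (hi j) < γ j + 1/4}) := by
      ext ψ; simp [N]
    rw [this]
    exact isOpen_iInter_of_finite fun j => (isOpen_lt continuous_const (hev _)).inter
      (isOpen_lt (hev _) continuous_const)
  have haN : S4 (y a) ∈ N := by
    intro j
    rw [hlo, hhi]
    constructor <;> linarith
  intro hcl
  obtain ⟨ψ, hψN, b, c, hbc, rfl⟩ := mem_closure_iff.1 hcl N hN haN
  -- indicator digits
  let t : A → Fin n → Fin n → ℤ := fun e j i => if 1/2 < g j (y e i) then 1 else 0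
  have ht : ∀ e j i, t e j i = 0 ∨ t e j i = 1 := by
    intro e j i
    by_cases h : 1/2 < g j (y e i)
    · right; simp only [t, h, if_true]
    · left; simp only [t, h, if_false]
  have hlow : ∀ e j, (S4 (y e)).1 (lo j) ≤ ∑ i : Fin n, (4:ℝ) ^ (i : ℕ) * (t e j i : ℝ) := by
    intro e j
    rw [S4_apply]
    refine Finset.sum_le_sum fun i _ => mul_le_mul_of_nonneg_left ?_ (by positivity)
    show max 0 (2 * min 1 (g j (y e i)) - 1) ≤ ((t e j i : ℤ) : ℝ)
    by_cases h : 1/2 < g j (y e i)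
    · have : t e j i = 1 := by simp only [t, h, if_true]
      rw [this]
      refine max_le (by norm_num) ?_
      have := min_le_left (1:ℝ) (g j (y e i))
      push_cast
      linarith
    · have : t e j i = 0 := by simp only [t, h, if_false]
      rw [this]
      refine max_le (by norm_num) ?_
      push Not at h
      have := min_le_right (1:ℝ) (g j (y e i))
      push_cast
      linarith
  have hhigh : ∀ e j, ∑ i : Fin n, (4:ℝ) ^ (i : ℕ) * (t e j i : ℝ) ≤ (S4 (y e)).1 (hi j) := by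
    intro e j
    rw [S4_apply]
    refine Finset.sum_le_sum fun i _ => mul_le_mul_of_nonneg_left ?_ (by positivity)
    show ((t e j i : ℤ) : ℝ) ≤ min 1 (2 * g j (y e i))
    by_cases h : 1/2 < g j (y e i)
    · have : t e j i = 1 := by simp only [t, h, if_true]
      rw [this]
      refine le_min (by norm_num) ?_
      push_cast
      linarith
    · have : t e j i = 0 := by simp only [t, h, if_false]
      rw [this]
      refine le_min (by norm_num) ?_
      have := hg0 j (y e i)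
      push_cast
      linarith
  have hdig : ∀ j i, t b j i + t c j i - 2 * (if y a i = y a j then 1 else 0) = 0 := by
    intro j
    apply digit
    · intro i
      rw [abs_le]
      rcases ht b j i with h1 | h1 <;> rcases ht c j i with h2 | h2 <;> rw [h1, h2] <;>
        split_ifs <;> constructor <;> norm_num
    · have h1 := hψN j
      rw [mid_apply, mid_apply] at h1
      have h2 := hlow b j
      have h3 := hlow c j
      have h4 := hhigh b j
      have h5 := hhigh c j
      have h6 : ((∑ i : Fin n, (t b j i + t c j i - 2 * (if y a i = y a j then 1 else 0)) * 4 ^ (i : ℕ) : ℤ) : ℝ)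
          = (∑ i : Fin n, (4:ℝ) ^ (i : ℕ) * (t b j i : ℝ)) + (∑ i : Fin n, (4:ℝ) ^ (i : ℕ) * (t c j i : ℝ))
            - 2 * γ j := by
        push_cast
        rw [← Finset.sum_add_distrib, Finset.mul_sum, ← Finset.sum_sub_distrib]
        refine Finset.sum_congr rfl fun i _ => ?_
        ring
      have h7 : |((∑ i : Fin n, (t b j i + t c j i - 2 * (if y a i = y a j then 1 else 0)) * 4 ^ (i : ℕ) : ℤ) : ℝ)|
          < 1 := by
        rw [h6, abs_lt]
        constructor <;> linarith [h1.1, h1.2]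
      have h8 : |(∑ i : Fin n, (t b j i + t c j i - 2 * (if y a i = y a j then 1 else 0)) * 4 ^ (i : ℕ) : ℤ)|
          < 1 := by exact_mod_cast h7
      exact Int.abs_lt_one_iff.1 h8
  have hmem : ∀ e, (∀ j, t e j j = 1) → y e ∈ O a := by
    intro e he
    apply hVO
    intro j
    have h1 : 1/2 < g j (y e j) := by
      by_contra h
      have : t e j j = 0 := by simp only [t, h, if_false]
      rw [he j] at this
      norm_num at this
    exact (hg2 j _ (by linarith)).1
  have hjj : ∀ j, t b j j = 1 ∧ t c j j = 1 := by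
    intro j
    have h1 := hdig j j
    simp only [if_true] at h1
    rcases ht b j j with h2 | h2 <;> rcases ht c j j with h3 | h3 <;> rw [h2, h3] at h1 <;>
      first | exact ⟨h2, h3⟩ | (exfalso; norm_num at h1)
  have hba : b = a := by
    by_contra h
    exact hd a b (fun h' => h h'.symm) (hmem b fun j => (hjj j).1)
  have hca : c = a := by
    by_contra h
    exact hd a c (fun h' => h h'.symm) (hmem c fun j => (hjj j).2)
  exact hbc (hba.trans hca.symm)

/-- perfect normality of `L_p(X)` gives countable spread of finite powers -/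
theorem spread_of_perfect [T35Space X] (hL : PerfectlyNormalSpace (LS X)) (n : ℕ) :
    CtbSpread (Fin n → X) := by
  classical
  intro A y O hO hy hd
  obtain ⟨W', hW', hdep⟩ := Pool.Agent.Helper47.LP.depends X hL
    (closure {ψ : LS X | ∃ b c, b ≠ c ∧ ψ = mid (y b) (y c)}) isClosed_closure
  choose G η hG hη hψ using fun a => hdep _ (not_mem_closure y O hO hy hd a)
  have hk : ∀ a, ∃ k : ℕ, 1 / ((k : ℝ) + 1) < η a := fun a => exists_nat_one_div_lt (hη a)
  choose k hk using hk
  have hWc : Countable ↥W' := hW'.to_subtype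
  let key : A → Finset (↥W' × ℤ) × ℕ := fun a =>
    (((G a).subtype (· ∈ W')).image (fun w => (w, ⌊(S4 (y a)).1 w.1 * ((k a : ℝ) + 1)⌋)), k a)
  have hinj : Function.Injective key := by
    intro a b hab
    by_contra hne
    have hkk : k a = k b := congrArg Prod.snd hab
    have hfst : ((G a).subtype (· ∈ W')).image
        (fun w => (w, ⌊(S4 (y a)).1 w.1 * ((k a : ℝ) + 1)⌋))
        = ((G b).subtype (· ∈ W')).image
        (fun w => (w, ⌊(S4 (y b)).1 w.1 * ((k b : ℝ) + 1)⌋)) := congrArg Prod.fst hab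
    refine hψ a (mid (y a) (y b)) ?_ (subset_closure ⟨a, b, hne, rfl⟩)
    intro w hw
    have hwW : w ∈ W' := hG a hw
    have h1 : ((⟨w, hwW⟩ : ↥W'), ⌊(S4 (y a)).1 w * ((k a : ℝ) + 1)⌋) ∈
        ((G a).subtype (· ∈ W')).image
        (fun w => (w, ⌊(S4 (y a)).1 w.1 * ((k a : ℝ) + 1)⌋)) := by
      refine Finset.mem_image.2 ⟨⟨w, hwW⟩, ?_, rfl⟩
      rw [Finset.mem_subtype]; exact hw
    rw [hfst] at h1
    obtain ⟨w', -, hw'⟩ := Finset.mem_image.1 h1
    have h2 : w' = ⟨w, hwW⟩ := congrArg Prod.fst hw'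
    have h3 : ⌊(S4 (y b)).1 w'.1 * ((k b : ℝ) + 1)⌋ = ⌊(S4 (y a)).1 w * ((k a : ℝ) + 1)⌋ :=
      congrArg Prod.snd hw'
    rw [h2, ← hkk] at h3
    have h4 := Int.abs_sub_lt_one_of_floor_eq_floor h3
    have hpos : (0:ℝ) < (k a : ℝ) + 1 := by positivity
    have h5 : |(S4 (y b)).1 w - (S4 (y a)).1 w| * ((k a : ℝ) + 1) < 1 := by
      have h8 : |(S4 (y b)).1 w - (S4 (y a)).1 w| * ((k a : ℝ) + 1)
          = |(S4 (y b)).1 w * ((k a : ℝ) + 1) - (S4 (y a)).1 w * ((k a : ℝ) + 1)| := by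
        rw [← sub_mul, abs_mul, abs_of_pos hpos]
      rw [h8]
      exact h4
    have h6 : |(S4 (y b)).1 w - (S4 (y a)).1 w| < η a := by
      refine lt_trans ?_ (hk a)
      rw [lt_div_iff₀ hpos]; exact h5
    rw [mid_apply]
    have h7 : 1/2 * ((S4 (y a)).1 w + (S4 (y b)).1 w) - (S4 (y a)).1 w
        = (1/2) * ((S4 (y b)).1 w - (S4 (y a)).1 w) := by ring
    rw [h7, abs_mul, abs_of_pos (by norm_num : (0:ℝ) < 1/2)]
    have := abs_nonneg ((S4 (y b)).1 w - (S4 (y a)).1 w)
    linarith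
  exact hinj.countable

end

/-- currying: spread of powers of powers -/
theorem spread_curry {X : Type*} [TopologicalSpace X] (h : ∀ m, CtbSpread (Fin m → X)) (n k : ℕ) :
    CtbSpread (Fin k → Fin n → X) := by
  intro A y O hO hy hd
  let e : (Fin (k * n) → X) → (Fin k → Fin n → X) := fun z i j => z (finProdFinEquiv (i, j))
  have he : Continuous e := continuous_pi fun i => continuous_pi fun j => continuous_apply _
  let e' : (Fin k → Fin n → X) → (Fin (k * n) → X) := fun w m =>
    w (finProdFinEquiv.symm m).1 (finProdFinEquiv.symm m).2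
  have hee : ∀ w, e (e' w) = w := by
    intro w
    funext i j
    show w (finProdFinEquiv.symm (finProdFinEquiv (i, j))).1
      (finProdFinEquiv.symm (finProdFinEquiv (i, j))).2 = w i j
    rw [Equiv.symm_apply_apply]
  refine h (k * n) A (fun a => e' (y a)) (fun a => e ⁻¹' (O a))
    (fun a => (hO a).preimage he) (fun a => ?_) (fun a b hab hcon => ?_)
  · show e (e' (y a)) ∈ O a
    rw [hee]; exact hy a
  · have h1 : e (e' (y b)) ∈ O a := hcon
    rw [hee] at h1
    exact hd a b hab h1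

/-- duality: hereditarily Lindelöf powers of `X` give separable subspaces of powers of `C_p(X)` -/
theorem sep_of_HL {X : Type} [TopologicalSpace X] (hHL : ∀ n, HLin (Fin n → X)) (k : ℕ)
    (S : Set (Fin k → {f : X → ℝ // Continuous f})) : SeparableSpace ↥S := by
  classical
  rcases S.eq_empty_or_nonempty with hS0 | ⟨s₀, hs₀⟩
  · subst hS0
    exact ⟨∅, countable_empty, fun x => x.2.elim⟩
  -- for each box, a countable subfamily
  have H : ∀ (n : ℕ) (p q : Fin k → Fin n → ℚ), ∃ D : Set (Fin k → {f : X → ℝ // Continuous f}),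
      D.Countable ∧ D ⊆ S ∧ ∀ f ∈ S, ∀ x : Fin n → X,
        (∀ l i, (p l i : ℝ) < (f l).1 (x i) ∧ (f l).1 (x i) < q l i) →
        ∃ d ∈ D, ∀ l i, (p l i : ℝ) < (d l).1 (x i) ∧ (d l).1 (x i) < q l i := by
    intro n p q
    let B : (Fin k → {f : X → ℝ // Continuous f}) → Set (Fin n → X) := fun f =>
      {x | ∀ l i, (p l i : ℝ) < (f l).1 (x i) ∧ (f l).1 (x i) < q l i}
    have hB : ∀ f, IsOpen (B f) := by
      intro f
      have : B f = ⋂ l, ⋂ i, ({x : Fin n → X | (p l i : ℝ) < (f l).1 (x i)} ∩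
          {x : Fin n → X | (f l).1 (x i) < q l i}) := by ext x; simp [B]
      rw [this]
      exact isOpen_iInter_of_finite fun l => isOpen_iInter_of_finite fun i =>
        (isOpen_lt continuous_const ((f l).2.comp (continuous_apply i))).inter
          (isOpen_lt ((f l).2.comp (continuous_apply i)) continuous_const)
    let T : Set (Fin n → X) := {x | ∃ f ∈ S, x ∈ B f}
    have hsel : ∀ x : Fin n → X, ∃ f, f ∈ S ∧ (x ∈ T → x ∈ B f) := by
      intro x
      by_cases hx : x ∈ T
      · obtain ⟨f, hf, hxf⟩ := hx; exact ⟨f, hf, fun _ => hxf⟩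
      · exact ⟨s₀, hs₀, fun h => absurd h hx⟩
    choose φ hφS hφB using hsel
    obtain ⟨T', hT'T, hT'c, hT'⟩ := hHL n T (fun x => B (φ x)) (fun x hx => ⟨hB _, hφB x hx⟩)
    refine ⟨φ '' T', hT'c.image _, ?_, ?_⟩
    · rintro _ ⟨x, -, rfl⟩; exact hφS x
    · intro f hf x hx
      obtain ⟨x', hx', hxx'⟩ := mem_iUnion₂.1 (hT' ⟨f, hf, hx⟩)
      exact ⟨φ x', ⟨x', hx', rfl⟩, hxx'⟩
  choose D hDc hDS hD using H
  let E : Set (Fin k → {f : X → ℝ // Continuous f}) :=
    ⋃ (n : ℕ) (p : Fin k → Fin n → ℚ) (q : Fin k → Fin n → ℚ), D n p q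
  have hEc : E.Countable := countable_iUnion fun n => countable_iUnion fun p =>
    countable_iUnion fun q => hDc n p q
  have hES : E ⊆ S := by
    intro d hd
    simp only [E, mem_iUnion] at hd
    obtain ⟨n, p, q, hd⟩ := hd
    exact hDS n p q hd
  refine ⟨Subtype.val ⁻¹' E, hEc.preimage Subtype.val_injective, ?_⟩
  intro f
  rw [mem_closure_iff]
  intro O hO hfO
  obtain ⟨O', hO', rfl⟩ := isOpen_induced_iff.1 hO
  -- basic neighbourhood in the double product
  have hfO' : f.1 ∈ O' := hfO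
  obtain ⟨I, u, hu, hIu⟩ := isOpen_pi_iff.1 hO' f.1 hfO'
  have hfin : ∀ l : Fin k, ∃ (F : Finset X) (ε : ℝ), 0 < ε ∧
      (l ∈ I → ∀ g : {f : X → ℝ // Continuous f}, (∀ x ∈ F, |g.1 x - (f.1 l).1 x| < ε) → g ∈ u l) := by
    intro l
    by_cases hl : l ∈ I
    · obtain ⟨O₁, hO₁, hO₁u⟩ := isOpen_induced_iff.1 (hu l hl).1
      have hfl : (f.1 l).1 ∈ O₁ := by
        have : f.1 l ∈ Subtype.val ⁻¹' O₁ := by rw [hO₁u]; exact (hu l hl).2
        exact this
      obtain ⟨J, v, hv, hJv⟩ := isOpen_pi_iff.1 hO₁ _ hfl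
      have hball : ∀ x : X, ∃ ε : ℝ, 0 < ε ∧ (x ∈ J → Metric.ball ((f.1 l).1 x) ε ⊆ v x) := by
        intro x
        by_cases hx : x ∈ J
        · obtain ⟨ε, hε, hε'⟩ := Metric.isOpen_iff.1 (hv x hx).1 _ (hv x hx).2
          exact ⟨ε, hε, fun _ => hε'⟩
        · exact ⟨1, one_pos, fun h => absurd h hx⟩
      choose ε hε hε' using hball
      obtain ⟨δ, hδ, hδJ⟩ : ∃ δ : ℝ, 0 < δ ∧ ∀ x ∈ J, δ ≤ ε x := by
        rcases J.eq_empty_or_nonempty with hJ | hJ
        · exact ⟨1, one_pos, fun x hx => by rw [hJ] at hx; exact absurd hx (Finset.notMem_empty x)⟩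
        · obtain ⟨x₀, hx₀, hmin⟩ := J.exists_min_image ε hJ
          exact ⟨ε x₀, hε x₀, hmin⟩
      refine ⟨J, δ, hδ, fun _ g hg => ?_⟩
      have : g ∈ Subtype.val ⁻¹' O₁ := by
        refine hJv fun x hx => hε' x hx ?_
        rw [Metric.mem_ball, Real.dist_eq]
        exact lt_of_lt_of_le (hg x hx) (hδJ x hx)
      rw [hO₁u] at this
      exact this
    · exact ⟨∅, 1, one_pos, fun h => absurd h hl⟩
  choose F ε hε hF using hfin
  let FF : Finset X := Finset.univ.biUnion F
  let e := FF.equivFin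
  let x : Fin FF.card → X := fun i => (e.symm i).1
  have hpq : ∀ l i, ∃ p q : ℚ, (p : ℝ) < (f.1 l).1 (x i) ∧ (f.1 l).1 (x i) < q ∧
      (f.1 l).1 (x i) - ε l < p ∧ (q : ℝ) < (f.1 l).1 (x i) + ε l := by
    intro l i
    obtain ⟨p, hp1, hp2⟩ := exists_rat_btwn
      (show (f.1 l).1 (x i) - ε l < (f.1 l).1 (x i) by linarith [hε l])
    obtain ⟨q, hq1, hq2⟩ := exists_rat_btwn
      (show (f.1 l).1 (x i) < (f.1 l).1 (x i) + ε l by linarith [hε l])
    exact ⟨p, q, hp2, hq1, hp1, hq2⟩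
  choose p q hp hq hpe hqe using hpq
  obtain ⟨d, hdD, hd⟩ := hD _ p q f.1 f.2 x (fun l i => ⟨hp l i, hq l i⟩)
  have hdE : d ∈ E := by simp only [E, mem_iUnion]; exact ⟨_, p, q, hdD⟩
  refine ⟨⟨d, hES hdE⟩, ?_, hdE⟩
  show d ∈ O'
  refine hIu fun l hl => hF l hl (d l) fun z hz => ?_
  have hzF : z ∈ FF := Finset.mem_biUnion.2 ⟨l, Finset.mem_univ l, hz⟩
  have hzx : x (e ⟨z, hzF⟩) = z := by simp [x]
  have h1 := hd l (e ⟨z, hzF⟩)
  have h2 := hpe l (e ⟨z, hzF⟩)
  have h3 := hqe l (e ⟨z, hzF⟩)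
  rw [hzx] at h1 h2 h3
  rw [abs_lt]
  constructor <;> linarith [h1.1, h1.2]

theorem cpcp_perfect {X : Type} [TopologicalSpace X] (hHL : ∀ n, HLin (Fin n → X)) :
    PerfectlyNormalSpace {g : {f : X → ℝ // Continuous f} → ℝ // Continuous g} := by
  have hCS : ∀ n, Pool.Agent.Helper937.Szd.CS (Fin n → Pool.Agent.Helper937.Szd.Cp X) :=
    fun n S _ => sep_of_HL hHL n S
  have hz : NormalSpace {g : {f : X → ℝ // Continuous f} → ℝ // Continuous g} ∧
      ∀ s : Set {g : {f : X → ℝ // Continuous f} → ℝ // Continuous g}, IsClosed s → IsGδ s := by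
    apply Pool.Agent.Helper937.Szd.perfect_of_zero
    intro P hP
    exact Pool.Agent.Helper937.Szd.zero_set (X := X)
      (E := {g : {f : X → ℝ // Continuous f} → ℝ // Continuous g})
      (fun φ => φ.1) IsInducing.subtypeVal (fun φ => φ.2) hCS P hP
  have := hz.1
  exact ⟨hz.2⟩

/-- under `MA(ℵ₁)` -/
theorem lp_to_cpcp {X : Type} [TopologicalSpace X] [T35Space X] (hMA : MartinAxiomAleph1)
    (hL : PerfectlyNormalSpace (LS X)) :
    (∀ n, HLin (Fin n → X)) ∧
      PerfectlyNormalSpace {g : {f : X → ℝ // Continuous f} → ℝ // Continuous g} := by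
  have h1 : ∀ n, HLin (Fin n → X) := fun n =>
    kunen hMA fun k => spread_curry (fun m => spread_of_perfect hL m) n k
  exact ⟨h1, cpcp_perfect h1⟩

end Pool.Agent.R594.Lp
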